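import Pool.Agent.Helper69.CB.CountB
import Pool.Agent.Helper79.CB.Core

/-!
# CB, degree 3, the three counts of `core3`
-/

set_option autoImplicit false

namespace Pool.Agent.Helper23.CB

open Finset Pool.Agent.Helper4.CB Pool.Agent.Helper69.CB

variable {n : ℕ} {G : Type} [AddCommGroup G] {S : Sys (2 * n) G}

open Classical in
/-- the points with an admissible cofactor of norm at most `M` -/
theorem cof_part (F : Fac3 n S) (K zs : ℕ) (hs : SiftB S K zs) {Γ0 : AddSubgroup G}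
    (hΓ0 : Γ0.index ≠ 0) {T : ℕ} (hT : zs ≤ T) (hT2 : 3 * Γ0.index ≤ T ^ 2) (E : ℕ)
    (hE : K + 2 ≤ 2 * E)
    (hΓΛ : ∀ (b : F.B) (T' : Finset S.Q), (∀ q ∈ F.pf b, q ∉ T') →
      Γ0 ⊔ (F.Λ b ⊓ T'.inf S.Γ) = ⊤)
    (Adm : Set F.B) {z0 k0 M : ℕ} (hz0 : T ≤ z0) {ε : ℝ}
    (hadm : ∀ A : Finset F.B,
      (∀ b ∈ A, b ∈ Adm ∧ F.bn b ≤ z0 ^ k0 ∧ ∀ q ∈ F.pf b, z0 < S.nm q) →
      ∑ b ∈ A, (1 : ℝ) / F.bn b ≤ ε)
    (hM : M ≤ z0 ^ k0)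
    (hrad : ∀ b : F.B, F.bn b ≤ M → Rad S.e (F.Λ b) (T ^ (2 * E - (K + 2))))
    (hV : 0 ≤ S.V T) (τ x0 : G) :
    (((bx S.e τ (T ^ (2 * E))).filter (fun g => g - x0 ∈ Γ0 ∧ (∀ q ∈ S.le z0, g ∉ S.E q) ∧
        ∃ b ∈ Adm, g ∈ F.Λ b ∧ (∀ q' ∈ F.pf b, g ∈ S.E q') ∧ F.bn b ≤ M)).card : ℝ) ≤
      5 / 4 * (((T ^ (2 * E) : ℕ) : ℝ) ^ (2 * n) / Γ0.index * S.V T) * ε := by
  set W := (bx S.e τ (T ^ (2 * E))).filter (fun g => g - x0 ∈ Γ0 ∧ (∀ q ∈ S.le z0, g ∉ S.E q) ∧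
        ∃ b ∈ Adm, g ∈ F.Λ b ∧ (∀ q' ∈ F.pf b, g ∈ S.E q') ∧ F.bn b ≤ M) with hW
  rcases W.eq_empty_or_nonempty with h0 | ⟨g0, hg0⟩
  · rw [h0, Finset.card_empty]
    have h1 := hadm ∅ (by simp)
    rw [Finset.sum_empty] at h1
    push_cast
    positivity
  have hch : ∀ g : G, ∃ b : F.B, g ∈ W → b ∈ Adm ∧ g ∈ F.Λ b ∧ (∀ q' ∈ F.pf b, g ∈ S.E q') ∧
      F.bn b ≤ M := by
    intro g
    by_cases hg : g ∈ W
    · obtain ⟨b, h1, h2, h3, h4⟩ := (mem_filter.1 hg).2.2.2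
      exact ⟨b, fun _ => ⟨h1, h2, h3, h4⟩⟩
    · obtain ⟨b, -⟩ := (mem_filter.1 hg0).2.2.2
      exact ⟨b, fun h => absurd h hg⟩
  choose f hf using hch
  have hA : ∀ b ∈ W.image f, b ∈ Adm ∧ F.bn b ≤ z0 ^ k0 ∧ ∀ q ∈ F.pf b, z0 < S.nm q := by
    intro b hb
    obtain ⟨g, hg, rfl⟩ := mem_image.1 hb
    obtain ⟨h1, h2, h3, h4⟩ := hf g hg
    refine ⟨h1, h4.trans hM, fun q hq => ?_⟩
    by_contra hc
    exact (mem_filter.1 hg).2.2.1 q (S.mem_le.mpr (not_lt.mp hc)) (h3 q hq)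
  have hsub : W ⊆ (W.image f).biUnion (fun b => (bx S.e τ (T ^ (2 * E))).filter
      (fun g => g - x0 ∈ Γ0 ∧ (∀ q ∈ S.le T, g ∉ S.E q) ∧ g ∈ F.Λ b)) := by
    intro g hg
    have hg' := mem_filter.1 hg
    refine mem_biUnion.2 ⟨f g, mem_image_of_mem _ hg, mem_filter.2 ⟨hg'.1, hg'.2.1, ?_,
      (hf g hg).2.1⟩⟩
    intro q hq
    exact hg'.2.2.1 q (S.mem_le.mpr ((S.mem_le.mp hq).trans hz0))
  have h1 : (W.card : ℝ) ≤ ∑ b ∈ W.image f, (((bx S.e τ (T ^ (2 * E))).filter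
      (fun g => g - x0 ∈ Γ0 ∧ (∀ q ∈ S.le T, g ∉ S.E q) ∧ g ∈ F.Λ b)).card : ℝ) := by
    exact_mod_cast (card_le_card hsub).trans card_biUnion_le
  refine h1.trans ?_
  have h2 : ∀ b ∈ W.image f, (((bx S.e τ (T ^ (2 * E))).filter
      (fun g => g - x0 ∈ Γ0 ∧ (∀ q ∈ S.le T, g ∉ S.E q) ∧ g ∈ F.Λ b)).card : ℝ) ≤
      5 / 4 * (((T ^ (2 * E) : ℕ) : ℝ) ^ (2 * n) / Γ0.index * S.V T) * (1 / F.bn b) := by
    intro b hb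
    obtain ⟨g, hg, rfl⟩ := mem_image.1 hb
    exact countA F K zs hs hΓ0 hT hT2 E hE (f g)
      (fun q hq => lt_of_le_of_lt hz0 ((hA _ hb).2.2 q hq)) (hΓΛ _)
      (hrad _ (hf g hg).2.2.2) τ x0
  refine (sum_le_sum h2).trans ?_
  rw [← Finset.mul_sum]
  exact mul_le_mul_of_nonneg_left (hadm _ hA) (by positivity)

open Classical in
/-- the points in the regular lattices of the bad primes of norm at most `M` -/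
theorem dir_part (F : Fac3 n S) (K zs : ℕ) (hs : SiftB S K zs) {Γ0 : AddSubgroup G}
    (hΓ0 : Γ0.index ≠ 0) {T : ℕ} (hT : zs ≤ T) (hT2 : 3 * Γ0.index ≤ T ^ 2) (E : ℕ)
    (hE : K + 2 ≤ 2 * E)
    (hΓΛ : ∀ (b : F.B) (T' : Finset S.Q), (∀ q ∈ F.pf b, q ∉ T') →
      Γ0 ⊔ (F.Λ b ⊓ T'.inf S.Γ) = ⊤)
    (bad : Set S.Q) {z0 M : ℕ} (hz0 : T ≤ z0) (hV : 0 ≤ S.V T) (τ x0 : G) :
    (((bx S.e τ (T ^ (2 * E))).filter (fun g => g - x0 ∈ Γ0 ∧ (∀ q ∈ S.le z0, g ∉ S.E q) ∧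
        ∃ q ∈ bad, S.nm q ≤ M ∧ g ∈ S.E q ∧ ∃ b ∈ F.P q, g ∈ F.Λ b ∧
          Rad S.e (F.Λ b) (T ^ (2 * E - (K + 2))))).card : ℝ) ≤
      5 / 4 * (((T ^ (2 * E) : ℕ) : ℝ) ^ (2 * n) / Γ0.index * S.V T) *
        (3 * ∑ q ∈ (S.le M).filter (fun q => q ∈ bad ∧ z0 < S.nm q), (1 : ℝ) / S.nm q) := by
  set Q := (S.le M).filter (fun q => q ∈ bad ∧ z0 < S.nm q) with hQ
  have hsub : (bx S.e τ (T ^ (2 * E))).filter (fun g => g - x0 ∈ Γ0 ∧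
      (∀ q ∈ S.le z0, g ∉ S.E q) ∧
        ∃ q ∈ bad, S.nm q ≤ M ∧ g ∈ S.E q ∧ ∃ b ∈ F.P q, g ∈ F.Λ b ∧
          Rad S.e (F.Λ b) (T ^ (2 * E - (K + 2)))) ⊆
      Q.biUnion (fun q => ((F.P q).filter (fun b => Rad S.e (F.Λ b)
        (T ^ (2 * E - (K + 2))))).biUnion (fun b => (bx S.e τ (T ^ (2 * E))).filter
      (fun g => g - x0 ∈ Γ0 ∧ (∀ q ∈ S.le T, g ∉ S.E q) ∧ g ∈ F.Λ b))) := by
    intro g hg
    obtain ⟨hgb, hgΓ, hgE, q, hqb, hqM, hgq, b, hb, hgb', hrad⟩ := mem_filter.1 hg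
    refine mem_biUnion.2 ⟨q, mem_filter.2 ⟨S.mem_le.2 hqM, hqb, ?_⟩, mem_biUnion.2
      ⟨b, mem_filter.2 ⟨hb, hrad⟩, mem_filter.2 ⟨hgb, hgΓ, ?_, hgb'⟩⟩⟩
    · by_contra hc
      exact hgE q (S.mem_le.mpr (not_lt.mp hc)) hgq
    · intro q' hq'
      exact hgE q' (S.mem_le.mpr ((S.mem_le.mp hq').trans hz0))
  have h1 : (((bx S.e τ (T ^ (2 * E))).filter (fun g => g - x0 ∈ Γ0 ∧
      (∀ q ∈ S.le z0, g ∉ S.E q) ∧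
        ∃ q ∈ bad, S.nm q ≤ M ∧ g ∈ S.E q ∧ ∃ b ∈ F.P q, g ∈ F.Λ b ∧
          Rad S.e (F.Λ b) (T ^ (2 * E - (K + 2))))).card : ℝ) ≤
      ∑ q ∈ Q, ∑ b ∈ (F.P q).filter (fun b => Rad S.e (F.Λ b)
        (T ^ (2 * E - (K + 2)))), (((bx S.e τ (T ^ (2 * E))).filter
      (fun g => g - x0 ∈ Γ0 ∧ (∀ q ∈ S.le T, g ∉ S.E q) ∧ g ∈ F.Λ b)).card : ℝ) := by
    exact_mod_cast (card_le_card hsub).trans (card_biUnion_le.trans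
      (sum_le_sum fun q _ => card_biUnion_le))
  refine h1.trans ?_
  have h2 : ∀ q ∈ Q, ∑ b ∈ (F.P q).filter (fun b => Rad S.e (F.Λ b)
        (T ^ (2 * E - (K + 2)))), (((bx S.e τ (T ^ (2 * E))).filter
      (fun g => g - x0 ∈ Γ0 ∧ (∀ q ∈ S.le T, g ∉ S.E q) ∧ g ∈ F.Λ b)).card : ℝ) ≤
      5 / 4 * (((T ^ (2 * E) : ℕ) : ℝ) ^ (2 * n) / Γ0.index * S.V T) *
        (3 * ((1 : ℝ) / S.nm q)) := by
    intro q hq
    have hq' := mem_filter.1 hq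
    have h3 : ∀ b ∈ (F.P q).filter (fun b => Rad S.e (F.Λ b)
        (T ^ (2 * E - (K + 2)))), (((bx S.e τ (T ^ (2 * E))).filter
      (fun g => g - x0 ∈ Γ0 ∧ (∀ q ∈ S.le T, g ∉ S.E q) ∧ g ∈ F.Λ b)).card : ℝ) ≤
      5 / 4 * (((T ^ (2 * E) : ℕ) : ℝ) ^ (2 * n) / Γ0.index * S.V T) * (1 / S.nm q) := by
      intro b hb
      have hb' := mem_filter.1 hb
      have h4 := countA F K zs hs hΓ0 hT hT2 E hE b (by
        intro q' hq''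
        rw [F.P_pf q b hb'.1, mem_singleton] at hq''
        rw [hq'']
        exact lt_of_le_of_lt hz0 hq'.2.2) (hΓΛ _) hb'.2 τ x0
      rwa [F.P_bn q b hb'.1] at h4
    refine (sum_le_sum h3).trans ?_
    rw [sum_const, nsmul_eq_mul]
    have h5 : (((F.P q).filter (fun b => Rad S.e (F.Λ b)
        (T ^ (2 * E - (K + 2))))).card : ℝ) ≤ 3 := by
      exact_mod_cast (card_filter_le _ _).trans (F.P_card q)
    have h6 : 0 ≤ 5 / 4 * (((T ^ (2 * E) : ℕ) : ℝ) ^ (2 * n) / Γ0.index * S.V T) *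
        (1 / S.nm q) := by positivity
    calc _ ≤ 3 * (5 / 4 * (((T ^ (2 * E) : ℕ) : ℝ) ^ (2 * n) / Γ0.index * S.V T) *
        (1 / S.nm q)) := mul_le_mul_of_nonneg_right h5 h6
      _ = _ := by ring
  refine (sum_le_sum h2).trans (le_of_eq ?_)
  rw [← Finset.mul_sum, ← Finset.mul_sum]

open Classical in
/-- the points in the exceptional lattices -/
theorem win_part (F : Fac3 n S) {E a c T : ℕ} (τ x0 : G) {Γ0 : AddSubgroup G}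
    (hwin : ∀ (A : Finset F.B),
      (∀ b ∈ A, (∃ q, b ∈ F.P q) ∧ F.bn b ≤ T ^ (3 * n * E + a) ∧
        ¬ Rad S.e (F.Λ b) (T ^ (2 * E - c))) →
      ∑ b ∈ A, ((bx S.e τ (T ^ (2 * E))).filter (fun g => g ∈ F.Λ b)).card ≤
        T ^ (3 * n * E + 2 * a + 4 * n * c + 2)) :
    ((bx S.e τ (T ^ (2 * E))).filter (fun g => g - x0 ∈ Γ0 ∧
        ∃ q, S.nm q ≤ T ^ (3 * n * E + a) ∧ ∃ b ∈ F.P q, g ∈ F.Λ b ∧
          ¬ Rad S.e (F.Λ b) (T ^ (2 * E - c)))).card ≤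
      T ^ (3 * n * E + 2 * a + 4 * n * c + 2) := by
  have hsub : (bx S.e τ (T ^ (2 * E))).filter (fun g => g - x0 ∈ Γ0 ∧
        ∃ q, S.nm q ≤ T ^ (3 * n * E + a) ∧ ∃ b ∈ F.P q, g ∈ F.Λ b ∧
          ¬ Rad S.e (F.Λ b) (T ^ (2 * E - c))) ⊆
      (((S.le (T ^ (3 * n * E + a))).biUnion F.P).filter
        (fun b => ¬ Rad S.e (F.Λ b) (T ^ (2 * E - c)))).biUnion
        (fun b => (bx S.e τ (T ^ (2 * E))).filter (fun g => g ∈ F.Λ b)) := by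
    intro g hg
    obtain ⟨hgb, -, q, hq, b, hb, hgb', hr⟩ := mem_filter.1 hg
    exact mem_biUnion.2 ⟨b, mem_filter.2 ⟨mem_biUnion.2 ⟨q, S.mem_le.2 hq, hb⟩, hr⟩,
      mem_filter.2 ⟨hgb, hgb'⟩⟩
  refine (card_le_card hsub).trans (card_biUnion_le.trans (hwin _ ?_))
  intro b hb
  obtain ⟨h1, h2⟩ := mem_filter.1 hb
  obtain ⟨q, hq, hbq⟩ := mem_biUnion.1 h1
  exact ⟨⟨q, hbq⟩, by rw [F.P_bn q b hbq]; exact S.mem_le.1 hq, h2⟩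

end Pool.Agent.Helper23.CB
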