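import Pool.Agent.Helper92.CB.RareK2

/-!
# CB, degree 3, piece COFSUM: sum over rough ideals whose norm is in a fixed class modulo `2 ^ J`

PROOF. Every `b ∈ A` is a product of `j` primes, `1 ≤ j ≤ k`, of norms in `(z, z ^ k]`, all units
modulo `2 ^ J`. Put `𝒫` = the primes with norm in `(z, z ^ k]`, odd norm. Induction on `j`: for every
unit `a` and every finite set `A` of products of exactly `j ≥ 1` primes of `𝒫` with `N b = a`,
`∑ 1 / N b ≤ s ^ (j - 1) * e`, where `e` is an upper bound for `∑_(P ∈ 𝒫, N P = a') 1 / N P` for all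
unit classes `a'`, and `s` an upper bound for `∑_(P ∈ 𝒫) 1 / N P` (`s = ` sum over the classes modulo
`2`, i.e. `invK_class_le` with `q = 2`): write `b = P b'`. By `invK_class_le`,
`e = 9 n / φ(2 ^ J) (1 + 2 log k)` and `s = 9 n (1 + 2 log k)` for `z ≥ w0(2 ^ J)`; `k s^k e ≤ ε` for
`J` large.
-/

set_option autoImplicit false

namespace Pool.Agent.Helper23.CB

open NumberField Ideal

theorem cof_sum (K : Type) [Field K] [NumberField K] (k : ℕ) {ε : ℝ} (hε : 0 < ε) :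
    ∃ J0 : ℕ, ∀ J : ℕ, J0 ≤ J → ∃ Z0 : ℕ, ∀ z : ℕ, Z0 ≤ z → ∀ a : ZMod (2 ^ J), IsUnit a →
      ∀ A : Finset (Ideal (𝓞 K)),
      (∀ b ∈ A, b ≠ ⊥ ∧ b ≠ ⊤ ∧ ((absNorm b : ℕ) : ZMod (2 ^ J)) = a ∧ absNorm b ≤ z ^ k ∧
        ∀ P : Ideal (𝓞 K), P.IsPrime → b ≤ P → z < absNorm P) →
      ∑ b ∈ A, (1 : ℝ) / absNorm b ≤ ε := by
  sorry

end Pool.Agent.Helper23.CB
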