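import Pool.Agent.Helper23.CB.Fac3
import Pool.Agent.Helper47.CB.Core3M

/-!
# CB, degree 3, piece CORE3: points without bad primes

Same as `Helper4.CB.core`, with two additions for factors of degree 3: the exceptional lattices
(`Fac3.Win`) and the sum over the cofactors (`Fac3.AdmSum`).

PLAN. `X = T ^ (2 E)`, `z1 = T`, `K` the constant of `sift`, `c = K + 2`, `a = 3 n (c + 1)`,
`z0 = T ^ A0` with `A0 = 3 n (c + 1) + 1`, `E = E(n, K)` large, `k0 = 3 n E + 1` (cofactors of factors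
of degree 3 have norm at most `C T ^ (3 n E - a) ≤ z0 ^ k0`), `ε` last.
`S(z)` = points of the box with `g - x0 ∈ Γ0` and `g ∉ E q` for all `q ∈ le z`;
`Y = X ^ (2 n) / Γ0.index`.
(0) `sift` at level `z0`: `#S(z0) ≥ 3/4 Y V(z0)`; `V(z1) ≤ C' V(z0)` (`V_ratio`).
(1) points in some `Γ q`, `nm q > z0`: as in `core`, at most `C Y z0 ^ (-1/2)`.
(2) a bad `q` (so `nm q > z0`) and `b ∈ P q` of the factor `l`, `g ∈ Λ b`, and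
   `nm q ≤ T ^ (d n (2 E - c - 1))` if `d ≤ 2`, `nm q ≤ T ^ (3 n E + a)` if `d = 3`:
   if `Rad (Λ b) (T ^ (2 E - c))` (always if `d ≤ 2`, by `rad` with `ρ = T ^ (2 E - c - 1)`,
   `T ≥ C`): `sift` at level `z1 = T` in `Γ0 ⊓ Λ b`: at most `5/4 Y V(z1) / nm q`; the sum of
   `1 / nm q` over bad `q` with `z0 < nm q ≤ X ^ (3 n)` is at most `ε log(X ^ (3 n)) / log z0`.
   The other `b`: `Win`.
(3) otherwise: the cofactor hypothesis gives `b'` with `bn b' * nm q ≤ C X ^ (d n)`. If `d ≤ 2`: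
   `bn b' ≤ C T ^ (d n (c + 1)) ≤ z0` and any `q' ∈ pf b'` has `nm q' ≤ z0`, `g ∈ E q'`:
   impossible for `g ∈ S(z0)`. If `d = 3`: `bn b' ≤ C T ^ (3 n E - a)`, all `q' ∈ pf b'` have norm
   `> z0`, `rad` (`bn b' ^ 2 ≤ ρ ^ (3 n)`, `ρ = T ^ (2 E - c - 1)`) and `sift` at level `z1` in
   `Γ0 ⊓ Λ b'`: at most `5/4 Y V(z1) / bn b'`, and `AdmSum` (`z = z0`).
(4) `V_lower`: `#good ≥ 1/2 Y V(z0) ≥ X ^ (2 n - 1/2)`.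
-/

set_option autoImplicit false

namespace Pool.Agent.Helper23.CB

open Finset Pool.Agent.Helper4.CB

open Classical in
theorem core3 (n D k : ℕ) (hn : 1 ≤ n) (Cm : ℝ) : ∃ (Y0 E k0 : ℕ) (ε : ℝ), 0 < ε ∧ 1 ≤ E ∧
    ∀ (G : Type) [AddCommGroup G] (S : Sys (2 * n) G), S.D = D → (∀ q, Y0 ≤ S.nm q) → S.Mert Cm →
    ∀ bad : Set S.Q,
    (∀ x : ℕ, 1 ≤ x → ∑ q ∈ (S.le x).filter (fun q => q ∈ bad), Real.log (S.nm q) / S.nm q ≤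
      ε * Real.log x) →
    ∀ (F : Fin k → Fac3 n S) (Adm : ∀ l, Set (F l).B),
    (∀ l, (F l).d = 3 → (F l).Win ∧ (F l).AdmSum (Adm l) k0 ε) →
    (∀ q ∈ bad, ∀ g ∈ S.E q, g ∈ S.Γ q ∨ ∃ l, ∃ b ∈ (F l).P q, g ∈ (F l).Λ b) →
    ∀ (Γ0 : AddSubgroup G) (x0 : G) (τ : ℕ → G) (C : ℕ), Γ0.index ≠ 0 →
    (∀ T : Finset S.Q, Γ0 ⊔ T.inf S.Γ = ⊤) →
    (∀ l, ∀ (b : (F l).B) (T : Finset S.Q), (∀ q ∈ (F l).pf b, q ∉ T) →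
      Γ0 ⊔ ((F l).Λ b ⊓ T.inf S.Γ) = ⊤) →
    -- the cofactor of a bad prime
    (∀ X : ℕ, 1 ≤ X → ∀ g ∈ bx S.e (τ X) X, g - x0 ∈ Γ0 → (∀ q, g ∉ S.Γ q) →
      ∀ l, ∀ q ∈ bad, ∀ p ∈ (F l).P q, g ∈ (F l).Λ p → ∃ b : (F l).B, b ∈ Adm l ∧
        ((F l).pf b).Nonempty ∧ g ∈ (F l).Λ b ∧ (∀ q' ∈ (F l).pf b, g ∈ S.E q') ∧
        (F l).bn b * S.nm q ≤ C * X ^ ((F l).d * n)) →
    -- common divisors
    (∀ X : ℕ, 1 ≤ X → ∀ g ∈ bx S.e (τ X) X, ∀ q, g ∈ S.Γ q → S.nm q ≤ C * X ^ n) →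
    (∀ q, ∀ ρ : ℕ, S.nm q ≤ ρ ^ n → Rad S.e (S.Γ q) (C * ρ)) →
    (∀ T : Finset S.Q, ∑ q ∈ T, (S.nm q : ℝ) ^ (-(3 / 2) : ℝ) ≤ C) →
    ∃ T0 : ℕ, ∀ T : ℕ, T0 ≤ T → ((T ^ (2 * E) : ℕ) : ℝ) ^ ((2 * n : ℝ) - 1 / 2) ≤
      ((bx S.e (τ (T ^ (2 * E))) (T ^ (2 * E))).filter (fun g => g - x0 ∈ Γ0 ∧
        (∀ q ∈ bad, g ∉ S.E q) ∧ ∀ q, g ∉ S.Γ q)).card := by
  exact Pool.Agent.Helper47.CB.core3 n D k hn Cm

end Pool.Agent.Helper23.CB
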