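import Pool.Agent.Helper4.CB.SIFT

/-!
# CB, degree 3: the data of one factor of degree at most 3

`B` is the set of all pairs `(b, t)`, `b` a nonzero ideal of `𝓞 K` prime to `m`, `t` a root of `P`
modulo `b`; `bn` is the norm of `b`, `pf` the set of the places dividing `b`,
`Λ (b, t) = {(u, v) : u - m t v ∈ b}`, and `P q` is the set of the pairs with `b = q`.
-/

set_option autoImplicit false

namespace Pool.Agent.Helper23.CB

open Finset Pool.Agent.Helper4.CB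

structure Fac3 {G : Type} [AddCommGroup G] (n : ℕ) (S : Sys (2 * n) G) where
  d : ℕ
  one_le : 1 ≤ d
  le_three : d ≤ 3
  B : Type
  bn : B → ℕ
  pf : B → Finset S.Q
  Λ : B → AddSubgroup G
  bn_pos : ∀ b, bn b ≠ 0
  index : ∀ b, (Λ b).index = bn b
  nm_le : ∀ b, ∀ q ∈ pf b, S.nm q ≤ bn b
  sup : ∀ (b : B) (T : Finset S.Q), (∀ q ∈ pf b, q ∉ T) → Λ b ⊔ T.inf S.Γ = ⊤
  P : S.Q → Finset B
  P_card : ∀ q, (P q).card ≤ 3
  P_bn : ∀ q, ∀ b ∈ P q, bn b = S.nm q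
  P_pf : ∀ q, ∀ b ∈ P q, pf b = {q}
  C : ℕ
  rad : ∀ (b : B) (ρ : ℕ), bn b ^ (max (d - 1) 1) ≤ ρ ^ (d * n) → Rad S.e (Λ b) (C * ρ)

variable {G : Type} [AddCommGroup G] {n : ℕ} {S : Sys (2 * n) G}

open Classical in
/-- **WIN** (exceptional lattices of the window): the lattices of the primes of norm at most
`T ^ (3 n E + a)`, whose covering radius is not at most `T ^ (2 E - c)`, contain together few points
of a box of side `T ^ (2 E)`. -/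
def Fac3.Win (F : Fac3 n S) : Prop :=
  ∀ E a c : ℕ, 8 * (a + c + 1) ≤ E → ∃ T0 : ℕ, ∀ T : ℕ, T0 ≤ T → ∀ (τ : G) (A : Finset F.B),
    (∀ b ∈ A, (∃ q, b ∈ F.P q) ∧ F.bn b ≤ T ^ (3 * n * E + a) ∧
      ¬ Rad S.e (F.Λ b) (T ^ (2 * E - c))) →
    ∑ b ∈ A, ((bx S.e τ (T ^ (2 * E))).filter (fun g => g ∈ F.Λ b)).card ≤
      T ^ (3 * n * E + 2 * a + 4 * n * c + 2)

/-- **ADM** (sum over the cofactors): `Adm` is the set of the pairs `(b, t)` with `b ≠ 1` and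
`N b` in one of two given classes modulo `2 ^ J`. -/
def Fac3.AdmSum (F : Fac3 n S) (Adm : Set F.B) (k : ℕ) (ε : ℝ) : Prop :=
  ∃ Z0 : ℕ, ∀ z : ℕ, Z0 ≤ z → ∀ A : Finset F.B,
    (∀ b ∈ A, b ∈ Adm ∧ F.bn b ≤ z ^ k ∧ ∀ q ∈ F.pf b, z < S.nm q) →
    ∑ b ∈ A, (1 : ℝ) / F.bn b ≤ ε

end Pool.Agent.Helper23.CB
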