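import Pool.Agent.Helper23.CB.Sieve3b
import Pool.Agent.Helper23.CB.Core3
import Pool.Agent.Helper47.CB.FacP3G
import Pool.Agent.Helper92.CB.FacV3G
import Pool.Agent.Helper35.CB.Glue

/-!
# CB: the sieve with a natural scaling, degree at most three
-/

set_option autoImplicit false

namespace Pool.Agent.Helper23.CB

open NumberField Polynomial Finset Pool.Agent.Helper4.CB Pool.Agent.Helper25.CB
  Pool.Agent.Helper35.CB Pool.Agent.Helper47.CB Pool.Agent.Helper92.CB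

variable {K : Type} [Field K] [NumberField K]

/-- the cofactor property with the class of the norm of the cofactor: an element `x` of a place `q`
prime to `m` with `N q ≡ 1` modulo `M` belongs to an ideal `I ≠ 1` prime to `m` such that
`N I * N q ≤ |N x|` and `N I ≡ ± a` modulo `M` -/
def Cofac3 (m M : ℕ) (x : 𝓞 K) (a : ZMod M) : Prop :=
  ∀ q : Pl K, (m : 𝓞 K) ∉ q.asIdeal → nm q ≡ 1 [MOD M] → x ∈ q.asIdeal →
    ∃ I : Im K m, I.1 ≠ ⊤ ∧ x ∈ I.1 ∧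
      Ideal.absNorm I.1 * nm q ≤ (Algebra.norm ℤ x).natAbs ∧
      (((Ideal.absNorm I.1 : ℕ) : ZMod M) = a ∨ ((Ideal.absNorm I.1 : ℕ) : ZMod M) = - a)

/-- the data of a polynomial -/
def OkP (K : Type) [Field K] [NumberField K] (m : ℕ) (P : (𝓞 K)[X]) : Prop :=
  P.Monic ∧ 1 ≤ P.natDegree ∧ P.natDegree ≤ 3 ∧ Irreducible (P.map (algebraMap (𝓞 K) K)) ∧
    ∀ q : Ideal (𝓞 K), (m : 𝓞 K) ∉ q → ∀ t, P.eval t ∈ q → P.derivative.eval t ∉ q

/-- the factors of the system: `v` and the polynomials of `S` -/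
noncomputable def facO3 (S : Finset (𝓞 K)[X]) (hS : ∀ P ∈ S, P.Monic) (s m D : ℕ)
    (hμ : ∀ q : Pm K m, (s : 𝓞 K) ∉ q.1.asIdeal) (hD : ∑ P ∈ S, P.natDegree + 1 ≤ D)
    (hs : s ≠ 0) (hS2 : ∀ P ∈ S, OkP K m P) :
    Option {P // P ∈ S} → Fac3 (Module.finrank ℚ K) (sysG S hS (s : 𝓞 K) m D hμ hD)
  | none => facV3G S hS (s : 𝓞 K) m D hμ hD
  | some P => facP3G S hS s m D hμ hD hs P.1 (hS P.1 P.2) (hS2 P.1 P.2).2.1 (hS2 P.1 P.2).2.2.1
      (hS2 P.1 P.2).2.2.2.1 (hS2 P.1 P.2).2.2.2.2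

theorem facO3_mem {S : Finset (𝓞 K)[X]} {hS : ∀ P ∈ S, P.Monic} {s m D : ℕ}
    {hμ : ∀ q : Pm K m, (s : 𝓞 K) ∉ q.1.asIdeal} {hD : ∑ P ∈ S, P.natDegree + 1 ≤ D}
    {hs : s ≠ 0} {hS2 : ∀ P ∈ S, OkP K m P} (P : {P // P ∈ S}) (q : Pm K m)
    (x : BP K m P.1) : x ∈ (facO3 S hS s m D hμ hD hs hS2 (some P)).P q ↔ x.1 = ofPm q :=
  memG_P (S := S) (hS := hS) (ν := s) (m := m) (D := D) (hμ := hμ)
    (hD := hD) (hν := hs) (P := P.1) (hP := hS P.1 P.2) (h1 := (hS2 P.1 P.2).2.1)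
    (h3 := (hS2 P.1 P.2).2.2.1) (hirr := (hS2 P.1 P.2).2.2.2.1)
    (hdisc := (hS2 P.1 P.2).2.2.2.2) q x

/-- the admissible cofactors -/
def admO {J : ℕ} (a : (𝓞 K)[X] → ZMod (2 ^ J)) (S : Finset (𝓞 K)[X]) (hS : ∀ P ∈ S, P.Monic)
    (s m D : ℕ) (hμ : ∀ q : Pm K m, (s : 𝓞 K) ∉ q.1.asIdeal)
    (hD : ∑ P ∈ S, P.natDegree + 1 ≤ D) (hs : s ≠ 0) (hS2 : ∀ P ∈ S, OkP K m P) :
    ∀ o : Option {P // P ∈ S}, Set (facO3 S hS s m D hμ hD hs hS2 o).B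
  | none => Set.univ
  | some P => {x : BP K m P.1 | x.1.1 ≠ ⊤ ∧
      (((Ideal.absNorm x.1.1 : ℕ) : ZMod (2 ^ J)) = a P.1 ∨
        ((Ideal.absNorm x.1.1 : ℕ) : ZMod (2 ^ J)) = - a P.1)}

/-- the sum over the admissible cofactors -/
theorem facP3G_adm {J k : ℕ} {ε : ℝ} {Z0 : ℕ} {a : ZMod (2 ^ J)} (ha : IsUnit a) {m : ℕ}
    {P : (𝓞 K)[X]} (hP : OkP K m P)
    (h : ∀ z : ℕ, Z0 ≤ z → ∀ a : ZMod (2 ^ J), IsUnit a → ∀ A : Finset (BP K m P),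
      (∀ x ∈ A, x.1.1 ≠ ⊤ ∧ ((Ideal.absNorm x.1.1 : ℕ) : ZMod (2 ^ J)) = a ∧
        Ideal.absNorm x.1.1 ≤ z ^ k ∧ ∀ q ∈ pf x.1, z < nm q.1) →
      ∑ x ∈ A, (1 : ℝ) / Ideal.absNorm x.1.1 ≤ ε / 2) (z : ℕ) (hz : Z0 ≤ z)
    (A : Finset (BP K m P))
    (hA : ∀ x ∈ A, (x.1.1 ≠ ⊤ ∧ (((Ideal.absNorm x.1.1 : ℕ) : ZMod (2 ^ J)) = a ∨
        ((Ideal.absNorm x.1.1 : ℕ) : ZMod (2 ^ J)) = - a)) ∧
        Ideal.absNorm x.1.1 ≤ z ^ k ∧ ∀ q ∈ pf x.1, z < nm q.1) :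
    ∑ x ∈ A, (1 : ℝ) / Ideal.absNorm x.1.1 ≤ ε := by
  classical
  have _ := hP
  have h1 := h z hz a ha (A.filter (fun x => ((Ideal.absNorm x.1.1 : ℕ) : ZMod (2 ^ J)) = a))
    (fun x hx => by
      rw [mem_filter] at hx
      exact ⟨(hA x hx.1).1.1, hx.2, (hA x hx.1).2⟩)
  have h2 := h z hz (- a) ha.neg
    (A.filter (fun x => ¬ ((Ideal.absNorm x.1.1 : ℕ) : ZMod (2 ^ J)) = a))
    (fun x hx => by
      rw [mem_filter] at hx
      exact ⟨(hA x hx.1).1.1, (hA x hx.1).1.2.resolve_left hx.2, (hA x hx.1).2⟩)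
  rw [← Finset.sum_filter_add_sum_filter_not A
    (fun x => ((Ideal.absNorm x.1.1 : ℕ) : ZMod (2 ^ J)) = a)]
  linarith

/-- **the sieve with scaling `s`, degree at most three** -/
theorem glue_three (K : Type) [Field K] [NumberField K] (D J0 : ℕ) :
    ∃ J Y : ℕ, 1 ≤ J ∧ J0 ≤ J ∧ 2 ≤ Y ∧ 2 ^ J ∣ Y ∧ ∀ S : Finset (𝓞 K)[X], S.card ≤ D →
    ∀ (m r s : ℕ) (a : (𝓞 K)[X] → ZMod (2 ^ J)), (∀ P ∈ S, OkP K m P) → m ≠ 0 → Y ∣ m →
      r.Coprime m → s ≠ 0 → (∀ q : Pm K m, (s : 𝓞 K) ∉ q.1.asIdeal) →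
      (∀ P ∈ S, IsUnit (a P)) →
      (∀ u v : 𝓞 K, (m : 𝓞 K) ∣ u - (r : 𝓞 K) → (m : 𝓞 K) ∣ v - (r : 𝓞 K) →
        Cofac m (2 ^ J) v ∧ ∀ P ∈ S, Cofac3 m (2 ^ J) (hv P u (s * v)) (a P)) →
      ∀ Z : Finset K, ∃ u v : 𝓞 K,
        (m : 𝓞 K) ∣ u - (r : 𝓞 K) ∧ (m : 𝓞 K) ∣ v - (r : 𝓞 K) ∧ u ≠ 0 ∧ v ≠ 0 ∧
        IsCoprime u ((m : 𝓞 K) * v) ∧ (u : K) / (s * v) ∉ Z ∧
        ∀ p : Pl K, nm p ≡ 1 [MOD 2 ^ J] → (m : 𝓞 K) ∉ p.asIdeal →
          v ∉ p.asIdeal ∧ ∀ P ∈ S, hv P u (s * v) ∉ p.asIdeal := by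
  classical
  have hn : 1 ≤ Module.finrank ℚ K := Module.finrank_pos
  obtain ⟨Cm, hCm0, hCm⟩ := mertens_upper K
  obtain ⟨Y0, E, k0, ε, hε, hE, hcore⟩ := core3 (Module.finrank ℚ K) (3 * D + 1) (D + 1) hn Cm
  obtain ⟨J1, hJ1⟩ := bad_sum K hε
  obtain ⟨J2, hJ2⟩ := adm_sum K k0 (half_pos hε)
  obtain ⟨C3, hC3⟩ := sum_nm_rpow K
  obtain ⟨J, hJ⟩ : ∃ J, J = J0 + J1 + J2 + 1 := ⟨_, rfl⟩
  obtain ⟨Z0, hZ0⟩ := hJ2 J (by omega)
  have hY2 : 2 ≤ 2 ^ J * Y0.factorial := by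
    have h1 : 2 ≤ 2 ^ J := by
      rw [hJ, pow_succ]
      have : 1 ≤ 2 ^ (J0 + J1 + J2) := Nat.one_le_two_pow
      omega
    exact le_trans h1 (Nat.le_mul_of_pos_right _ (Nat.factorial_pos _))
  refine ⟨J, 2 ^ J * Y0.factorial, by omega, by omega, hY2, Dvd.intro _ rfl,
    fun S hSD m r s a hS hm0 hYm hrm hs0 hμ ha hcof Z => ?_⟩
  have hmY : Y0.factorial ∣ m := (Dvd.intro_left _ rfl).trans hYm
  have hmK : (m : 𝓞 K) ≠ 0 := Nat.cast_ne_zero.2 hm0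
  have hm2 : m ≠ 1 := by
    rintro rfl
    have := Nat.le_of_dvd (by norm_num) hYm
    omega
  have hr0 : ∀ x : 𝓞 K, (m : 𝓞 K) ∣ x - (r : 𝓞 K) → x ≠ 0 := ne_zero_of_congr hm2 hrm
  have hSm : ∀ P ∈ S, P.Monic := fun P hP => (hS P hP).1
  have hD : ∑ P ∈ S, P.natDegree + 1 ≤ 3 * D + 1 := by
    have h1 : ∑ P ∈ S, P.natDegree ≤ ∑ _P ∈ S, 3 := sum_le_sum (fun P hP => (hS P hP).2.2.1)
    rw [sum_const, smul_eq_mul] at h1
    omega
  obtain ⟨f, hf⟩ := exists_surj S hSD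
  -- constants
  choose! C1 hC1 using fun P : (𝓞 K)[X] => Helper75.CB.norm_hv_le (K := K) P (s : 𝓞 K)
  obtain ⟨C2, hC2⟩ := Helper75.CB.norm_fst_le K
  obtain ⟨C4, hC4⟩ := Helper75.CB.norm_snd_le K
  obtain ⟨C5, hC5⟩ := rad_both K (eK K)
  obtain ⟨C, hC⟩ : ∃ C, C = ∑ P ∈ S, C1 P * 2 ^ (P.natDegree * Module.finrank ℚ K) +
    C2 * 2 ^ Module.finrank ℚ K + C4 * 2 ^ Module.finrank ℚ K + C5 + ⌈C3⌉₊ := ⟨_, rfl⟩
  obtain ⟨T1, hT1⟩ := hcore (𝓞 K × 𝓞 K) (sysG S hSm (s : 𝓞 K) m (3 * D + 1) hμ hD) rfl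
    (fun q => le_nm_of_factorial hmY q)
    (by
      intro x y hx hxy
      refine le_trans ?_ (hCm x y hx hxy)
      refine sum_sub_le (K := K) (m := m) _ _ (fun p => Real.log (nm p) / nm p) log_div_nonneg ?_
      intro q hq
      have hq' := (@Finset.mem_filter _ _ (_) _ _).1 hq
      exact (@Finset.mem_filter _ _ (_) _ _).2 ⟨mem_plLE.2 ((Sys.mem_le _).1 hq'.1), hq'.2⟩)
    {q | nm q.1 ≡ 1 [MOD 2 ^ J]}
    (by
      intro x hx
      refine le_trans ?_ (hJ1 J (by omega) x hx)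
      refine sum_sub_le (K := K) (m := m) _ _ (fun p => Real.log (nm p) / nm p) log_div_nonneg ?_
      intro q hq
      have hq' := (@Finset.mem_filter _ _ (_) _ _).1 hq
      exact (@Finset.mem_filter _ _ (_) _ _).2 ⟨mem_plLE.2 ((Sys.mem_le _).1 hq'.1), hq'.2⟩)
    (fun l => facO3 S hSm s m (3 * D + 1) hμ hD hs0 hS (f l))
    (fun l => admO a S hSm s m (3 * D + 1) hμ hD hs0 hS (f l))
    (by
      intro l
      rcases f l with _ | P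
      · intro hd
        exact absurd hd (by decide : (1 : ℕ) ≠ 3)
      · intro hd
        refine ⟨facP3G_win (S := S) (hS := hSm) (ν := s) (m := m) (D := 3 * D + 1) (hμ := hμ)
          (hD := hD) (hν := hs0) (P := P.1) (hP := hSm P.1 P.2) (h1 := (hS P.1 P.2).2.1)
          (h3 := (hS P.1 P.2).2.2.1) (hirr := (hS P.1 P.2).2.2.2.1)
          (hdisc := (hS P.1 P.2).2.2.2.2) hd, Z0, fun z hz A hA => ?_⟩
        exact facP3G_adm (ha P.1 P.2) (hS P.1 P.2) (fun z hz a ha A hA =>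
          hZ0 z hz a ha m P.1 (hS P.1 P.2).1 (hS P.1 P.2).2.2.1 (hS P.1 P.2).2.2.2.2 A hA)
          z hz A hA)
    (by
      intro q hq g hg
      right
      rcases cover3G hSm q (hμ q) hg with h | ⟨P, hP, t, hgt⟩
      · obtain ⟨l, hl⟩ := hf none
        refine ⟨l, ?_⟩
        rw [hl]
        exact ⟨ofPm q, mem_facV3G_P.2 rfl, h⟩
      · obtain ⟨l, hl⟩ := hf (some ⟨P, hP⟩)
        refine ⟨l, ?_⟩
        rw [hl]
        exact ⟨(⟨ofPm q, t⟩ : BP K m P), (facO3_mem ⟨P, hP⟩ q _).2 rfl, hgt⟩)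
    (gam (Ideal.span {(m : 𝓞 K)})) ((r : 𝓞 K), (r : 𝓞 K)) (fun _ => tau K) C
    (index_span_ne_zero hmK)
    (fun T => com_span T (fun q : Pm K m => q.1) (m : 𝓞 K) (fun q _ => q.2))
    (by
      intro l
      rcases f l with _ | P
      · intro b T _
        exact base_facV3G b T
      · intro b T _
        exact base_sup b.1 _ (gam_le_Lam _ _) T)
    (by
      -- the cofactor
      intro X hX g hg hg0 hgam l
      have hgu : (m : 𝓞 K) ∣ g.1 - (r : 𝓞 K) := Ideal.mem_span_singleton.1 hg0.1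
      have hgv : (m : 𝓞 K) ∣ g.2 - (r : 𝓞 K) := Ideal.mem_span_singleton.1 hg0.2
      rcases f l with _ | P
      · intro q hq p hp hgp
        have hp' : p = ofPm q := mem_facV3G_P.1 hp
        subst hp'
        obtain ⟨q', h1, h2⟩ := (hcof g.1 g.2 hgu hgv).1 q.1 q.2 hq hgp
        refine ⟨ofPm q', Set.mem_univ _, ?_, h1, ?_, ?_⟩
        · show (pf (ofPm q')).Nonempty
          rw [pf_ofPm]
          exact Finset.singleton_nonempty _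
        · intro q'' hq''
          have h3 : ∀ x : Pm K m, x ∈ pf (ofPm q') → x = q' := by
            intro x hx
            rwa [pf_ofPm, Finset.mem_singleton] at hx
          have h4 : q'' = q' := h3 q'' hq''
          rw [h4]
          exact Or.inl h1
        · refine h2.trans ((hC4 (2 * X) (by omega) g (box_sub hX hg)).trans ?_)
          show C4 * (2 * X) ^ Module.finrank ℚ K ≤ C * X ^ (1 * Module.finrank ℚ K)
          rw [one_mul, mul_pow, ← mul_assoc]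
          exact Nat.mul_le_mul_right _ (by omega)
      · intro q hq p hp hgp
        have hp' : p.1 = ofPm q := (facO3_mem P q p).1 hp
        obtain ⟨I, t⟩ := p
        have hp'' : I = ofPm q := hp'
        subst hp''
        obtain ⟨b, h1, h2, h3, h4, h5⟩ := cof_PG (J := J) (hS P.1 P.2).1 hμ (a P.1) (hC1 P.1)
          (X := 2 * X) (by omega) (box_sub hX hg) hgam q
          (fun hx => (hcof g.1 g.2 hgu hgv).2 P.1 P.2 q.1 q.2 hq hx) t hgp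
        refine ⟨b, h1, h2, h3, fun q' hq' => Or.inr ⟨P.1, P.2, h4 q' hq'⟩, h5.trans ?_⟩
        show C1 P.1 * (2 * X) ^ (P.1.natDegree * Module.finrank ℚ K) ≤
          C * X ^ (P.1.natDegree * Module.finrank ℚ K)
        rw [mul_pow, ← mul_assoc]
        refine Nat.mul_le_mul_right _ ?_
        have h3 : C1 P.1 * 2 ^ (P.1.natDegree * Module.finrank ℚ K) ≤
            ∑ P ∈ S, C1 P * 2 ^ (P.natDegree * Module.finrank ℚ K) :=
          single_le_sum (f := fun P : (𝓞 K)[X] => C1 P * 2 ^ (P.natDegree * Module.finrank ℚ K))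
            (fun _ _ => Nat.zero_le _) P.2
        omega)
    (by
      intro X hX g hg q hq
      have h1 := nm_le_norm (fst_ne_zero hg) q.1 hq.1
      refine h1.trans ((hC2 (2 * X) (by omega) g (box_sub hX hg)).trans ?_)
      rw [mul_pow, ← mul_assoc]
      exact Nat.mul_le_mul_right _ (by omega))
    (by
      intro q ρ hρ
      have h1 := hC5 q.1 (gam q.1.asIdeal) (fun g => mem_gam) ρ hρ
      intro g
      obtain ⟨l, hl, h2⟩ := h1 g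
      refine ⟨l, hl, fun i => (h2 i).trans ?_⟩
      have : C5 * ρ ≤ C * ρ := Nat.mul_le_mul_right _ (by omega)
      exact_mod_cast this)
    (by
      intro T
      have h1 : ∑ q ∈ T, (nm q.1 : ℝ) ^ (-(3 / 2) : ℝ) ≤ C3 := by
        exact le_trans (Finset.sum_map T (Function.Embedding.subtype _)
          (fun v : Pl K => (nm v : ℝ) ^ (-(3 / 2) : ℝ))).ge
            (hC3 (T.map (Function.Embedding.subtype _)))
      refine h1.trans ((Nat.le_ceil C3).trans ?_)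
      have : ⌈C3⌉₊ ≤ C := by omega
      exact_mod_cast this)
  -- the choice of the box
  obtain ⟨X2, hX2⟩ := rpow_gt (Module.finrank ℚ K) Z.card hn
  obtain ⟨X, hXdef⟩ : ∃ X, X = (T1 + X2 + 1) ^ (2 * E) := ⟨_, rfl⟩
  have hX2X : X2 ≤ X := by
    rw [hXdef]
    calc X2 ≤ T1 + X2 + 1 := by omega
      _ = (T1 + X2 + 1) ^ 1 := (pow_one _).symm
      _ ≤ (T1 + X2 + 1) ^ (2 * E) := Nat.pow_le_pow_right (by omega) (by omega)
  have hA := hT1 (T1 + X2 + 1) (by omega)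
  rw [← hXdef] at hA
  have hB := hX2 X hX2X
  obtain ⟨A, hAdef⟩ : ∃ A, A = (bx (eK K) (tau K) X).filter (fun g =>
      g - ((r : 𝓞 K), (r : 𝓞 K)) ∈ gam (Ideal.span {(m : 𝓞 K)}) ∧
        (∀ q : Pm K m, nm q.1 ≡ 1 [MOD 2 ^ J] → g ∉ EV S (s : 𝓞 K) q.1) ∧
        ∀ q : Pm K m, g ∉ gam q.1.asIdeal) := ⟨_, rfl⟩
  have hAc : (X : ℝ) ^ ((2 * Module.finrank ℚ K : ℝ) - 1 / 2) ≤ A.card := by
    refine hA.trans (le_of_eq ?_)
    rw [hAdef]
    congr 2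
  obtain ⟨B, hBdef⟩ : ∃ B, B = Z.biUnion (fun z => (bx (eK K) (tau K) X).filter
      (fun g => (g.1 : K) = (z * s) * (g.2 : K))) := ⟨_, rfl⟩
  have hBc : B.card ≤ Z.card * X ^ Module.finrank ℚ K := by
    rw [hBdef]
    refine card_biUnion_le.trans ((sum_le_card_nsmul _ _ (X ^ Module.finrank ℚ K)
      (fun z _ => Helper32.CB.card_line K (z * s) _ X)).trans (le_of_eq (smul_eq_mul _ _)))
  have hlt : B.card < A.card := by
    have h1 : (B.card : ℝ) < A.card := by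
      refine lt_of_le_of_lt ?_ (hB.trans_le hAc)
      exact_mod_cast hBc
    exact_mod_cast h1
  obtain ⟨g, hgA, hgB⟩ := exists_mem_notMem_of_card_lt_card hlt
  rw [hAdef, mem_filter] at hgA
  obtain ⟨hgX, hg0, hgE, hgG⟩ := hgA
  have hgu : (m : 𝓞 K) ∣ g.1 - (r : 𝓞 K) := Ideal.mem_span_singleton.1 hg0.1
  have hgv : (m : 𝓞 K) ∣ g.2 - (r : 𝓞 K) := Ideal.mem_span_singleton.1 hg0.2
  have hv0 : g.2 ≠ 0 := hr0 _ hgv
  refine ⟨g.1, g.2, hgu, hgv, fst_ne_zero hgX, hv0, ?_, ?_, ?_⟩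
  · refine Helper56.CB.coprime_of_places
      (fun p hp => Pool.Agent.Helper35.CB.notMem_of_congr hrm hgu p hp) ?_
    rintro p ⟨hp1, hp2⟩
    by_cases hp : (m : 𝓞 K) ∈ p.asIdeal
    · exact Pool.Agent.Helper35.CB.notMem_of_congr hrm hgu p hp hp1
    · exact hgG ⟨p, hp⟩ ⟨hp1, hp2⟩
  · intro hz
    apply hgB
    rw [hBdef, mem_biUnion]
    refine ⟨_, hz, mem_filter.2 ⟨hgX, ?_⟩⟩
    have h1 : (s : K) ≠ 0 := Nat.cast_ne_zero.2 hs0
    have h2 : (g.2 : K) ≠ 0 := by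
      intro h
      exact hv0 (RingOfIntegers.ext h)
    field_simp
  · intro p hp hpm
    have h1 := hgE ⟨p, hpm⟩ hp
    exact ⟨fun h => h1 (Or.inl h), fun P hP h => h1 (Or.inr ⟨P, hP, h⟩)⟩

end Pool.Agent.Helper23.CB
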