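import Pool.Agent.Helper60.CB.Lam3a
import Pool.Agent.Helper47.CB.Rad3
import Pool.Agent.Helper98.CB.Win
import Pool.Agent.Helper4.CB.STM

/-!
# CB, degree <= 3: the lattices of a polynomial `P`, frames of RAD and WIN
-/

set_option autoImplicit false

namespace Pool.Agent.Helper23.CB

open Finset Module NumberField Polynomial Pool.Agent.Helper4.CB

export Pool.Agent.Helper60.CB (exists_coord exists_norm_le hv_mem hv_ne_zero
  exists_norm_hv_le)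

/-- **RAD** -/
theorem rad_Lam (K : Type) [Field K] [NumberField K] {n : ℕ} (hn : 0 < n)
    (B : Basis (Fin n) ℤ (𝓞 K)) (e : (Fin (2 * n) → ℤ) ≃+ 𝓞 K × 𝓞 K) (P : (𝓞 K)[X])
    (hP : P.Monic) (h1 : 1 ≤ P.natDegree) (h3 : P.natDegree ≤ 3)
    (hirr : Irreducible (P.map (algebraMap (𝓞 K) K))) (m : ℕ) (hm : m ≠ 0) :
    ∃ C : ℕ, ∀ (b : Ideal (𝓞 K)) (t : 𝓞 K), b ≠ ⊥ → P.eval t ∈ b → ∀ ρ : ℕ,
      Ideal.absNorm b ^ (max (P.natDegree - 1) 1) ≤ ρ ^ (P.natDegree * n) →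
      Rad e (Lam b (t * m)).toAddSubgroup (C * ρ) := by
  have _ := h3
  exact Pool.Agent.Helper47.CB.rad_Lam_of K hn B e P h1 m
    (Pool.Agent.Helper60.CB.exists_coord B e)
    (fun b t ht w hw => Pool.Agent.Helper60.CB.hv_mem K P hP m b t ht w hw)
    (fun hd w hw => Pool.Agent.Helper60.CB.hv_ne_zero K P hP hd hirr m hm w hw)
    (Pool.Agent.Helper60.CB.exists_norm_hv_le K B P m)

open Classical in
/-- **WIN**.  PLAN (`λ` = smallest size of a nonzero vector of the lattice `Λ` of `x ∈ A`,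
`w1 ∈ Λ` of size `λ`, `q = absNorm x.1`, `R` = the largest natural with `C * R ≤ T ^ (2 E - c)`, `C` from
`radius` and `exists_coord`): if `λ > R` then `q ≥ (R + 1) ^ (2 n)` (`exists_short`), false for `T`
large; so by `radius`, `(R λ) ^ n < 3 ^ n q`.  With `q ≤ C λ ^ (3 n)` (`hv_mem`, `exists_norm_hv_le`):
`R ^ n < C λ ^ (2 n)`, `λ ^ n ≤ C T ^ (n E + a + n c)`.  Number of `w1`: `(2 λ + 1) ^ (2 n)
≤ C T ^ (2 n E + 2 a + 2 n c)`.  For each `w1`: `x.1` contains `hv P w1.1 (m w1.2) ≠ 0`, so at most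
`log2 (norm) ≤ T / 3` primes, and at most 3 classes `x.2` modulo `x.1`.  For each pair `(w1, x)`:
`count_Lam` with `μ ^ n ≥ q / C` (`exists_norm_le`), `ρ = C T ^ (2 E)`: at most
`C (T ^ (2E) / λ) ^ n (T ^ (2E) λ / μ) ^ n ≤ C T ^ (n E + n c / 2) T ^ (n c)` points.
Total `C T ^ (3 n E + 2 a + 3.5 n c + 1)`. -/
theorem win_Lam (K : Type) [Field K] [NumberField K] {n : ℕ} (hn : 0 < n)
    (B : Basis (Fin n) ℤ (𝓞 K)) (e : (Fin (2 * n) → ℤ) ≃+ 𝓞 K × 𝓞 K) (P : (𝓞 K)[X])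
    (hP : P.Monic) (h3 : P.natDegree = 3)
    (hirr : Irreducible (P.map (algebraMap (𝓞 K) K))) (m : ℕ) (hm : m ≠ 0)
    (E a c : ℕ) (hE : 8 * (a + c + 1) ≤ E) : ∃ T0 : ℕ, ∀ T : ℕ, T0 ≤ T →
    ∀ (τ : 𝓞 K × 𝓞 K) (A : Finset (Ideal (𝓞 K) × 𝓞 K)),
    (∀ x ∈ A, x.1.IsPrime ∧ x.1 ≠ ⊥ ∧ P.eval x.2 ∈ x.1 ∧
      Ideal.absNorm x.1 ≤ T ^ (3 * n * E + a) ∧
      ¬ Rad e (Lam x.1 (x.2 * m)).toAddSubgroup (T ^ (2 * E - c))) →
    (∀ x ∈ A, ∀ y ∈ A, x.1 = y.1 → x.2 - y.2 ∈ x.1 → x = y) →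
    ∑ x ∈ A, ((bx e τ (T ^ (2 * E))).filter (fun g => g ∈ Lam x.1 (x.2 * m))).card ≤
      T ^ (3 * n * E + 2 * a + 4 * n * c + 2) := by
  exact Pool.Agent.Helper98.CB.win_of hn B e P hP h3 m (exists_coord B e) (exists_norm_le K B)
    (fun b t ht w hw => hv_mem K P hP m b t ht w hw)
    (fun w hw => hv_ne_zero K P hP (by omega) hirr m hm w hw) (exists_norm_hv_le K B P m) E a c hE

end Pool.Agent.Helper23.CB
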