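import Pool.Agent.Helper23.CB.Roots

/-!
# CB, degree 3: the number of roots modulo an ideal
-/

set_option autoImplicit false

namespace Pool.Agent.Helper23.CB

open Polynomial

theorem card_roots_le {O : Type*} [CommRing O] (P : O[X]) (b : Ideal O) (d : ℕ)
    (hd : P.natDegree ≤ d) (hmon : P.Monic)
    (hP : ∀ q : Ideal O, q.IsPrime → b ≤ q → ∀ t : O, P.eval t ∈ q → P.derivative.eval t ∉ q)
    (Q : Finset (Ideal O)) (hQ : ∀ q ∈ Q, q.IsPrime) (hbQ : ∀ q ∈ Q, b ≤ q)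
    (hall : ∀ q : Ideal O, q.IsPrime → b ≤ q → q ∈ Q) :
    Finite {t : O ⧸ b // (P.map (Ideal.Quotient.mk b)).eval t = 0} ∧
      Nat.card {t : O ⧸ b // (P.map (Ideal.Quotient.mk b)).eval t = 0} ≤ d ^ Q.card := by
  classical
  obtain ⟨R, hR, hR1, hR2⟩ := exists_root_reps P b d hd hmon hP Q hQ hbQ hall
  let f : R → {t : O ⧸ b // (P.map (Ideal.Quotient.mk b)).eval t = 0} := fun t =>
    ⟨Ideal.Quotient.mk b t, by
      rw [Polynomial.eval_map, Polynomial.eval₂_at_apply, Ideal.Quotient.eq_zero_iff_mem]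
      exact hR1 t t.2⟩
  have hf : Function.Surjective f := by
    rintro ⟨t, ht⟩
    obtain ⟨s, rfl⟩ := Ideal.Quotient.mk_surjective t
    rw [Polynomial.eval_map, Polynomial.eval₂_at_apply, Ideal.Quotient.eq_zero_iff_mem] at ht
    obtain ⟨t', ht', h⟩ := hR2 s ht
    refine ⟨⟨t', ht'⟩, Subtype.ext ?_⟩
    exact (Ideal.Quotient.eq.2 h).symm
  refine ⟨Finite.of_surjective f hf, ?_⟩
  refine (Nat.card_le_card_of_surjective f hf).trans ?_
  rw [Nat.card_eq_fintype_card, Fintype.card_coe]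
  exact hR

end Pool.Agent.Helper23.CB
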