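import Pool.Agent.Helper35.CB.InstDefs
import Pool.Agent.Helper23.CB.Lam3
import Pool.Agent.Helper23.CB.RtCard
import Pool.Agent.Helper8.CB.Cof3
import Pool.Agent.Helper75.CB.Adm
import Pool.Agent.Helper94.CB.Disc

/-!
# CB, degree 3: ideals prime to `m`, cofactors, roots (frames)
-/

set_option autoImplicit false

namespace Pool.Agent.Helper23.CB

open NumberField Polynomial Finset Pool.Agent.Helper4.CB Pool.Agent.Helper25.CB
  Pool.Agent.Helper35.CB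

variable {K : Type} [Field K] [NumberField K] {m : ℕ}

/-- nonzero ideals prime to `m` -/
abbrev Im (K : Type) [Field K] [NumberField K] (m : ℕ) : Type :=
  {I : Ideal (𝓞 K) // I ≠ ⊥ ∧ I ⊔ Ideal.span {(m : 𝓞 K)} = ⊤}

/-- `Ideal.finite_factors` -/
theorem finite_pf (I : Im K m) : {q : Pm K m | I.1 ≤ q.1.asIdeal}.Finite := by
  have h := (Ideal.finite_factors (I := I.1) I.2.1).preimage
    (f := fun q : Pm K m => q.1) Subtype.val_injective.injOn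
  refine h.subset fun q hq => ?_
  exact Ideal.dvd_iff_le.2 hq

/-- the places dividing `I` -/
noncomputable def pf (I : Im K m) : Finset (Pm K m) := (finite_pf I).toFinset

theorem mem_pf {I : Im K m} {q : Pm K m} : q ∈ pf I ↔ I.1 ≤ q.1.asIdeal := by
  unfold pf
  rw [Set.Finite.mem_toFinset]
  rfl

/-- a prime ideal containing an ideal prime to `m` is one of the places in `pf` -/
theorem exists_pf (I : Im K m) (q : Ideal (𝓞 K)) (hq : q.IsPrime) (h : I.1 ≤ q) :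
    ∃ q' ∈ pf I, q'.1.asIdeal = q := by
  have hb : q ≠ ⊥ := by
    intro h0
    rw [h0, le_bot_iff] at h
    exact I.2.1 h
  have hm : (m : 𝓞 K) ∉ q := by
    intro h0
    apply hq.ne_top
    rw [eq_top_iff, ← I.2.2]
    exact sup_le h ((Ideal.span_singleton_le_iff_mem _).2 h0)
  exact ⟨⟨⟨q, hq, hb⟩, hm⟩, mem_pf.2 h, rfl⟩

theorem pf_nonempty (I : Im K m) (h : I.1 ≠ ⊤) : (pf I).Nonempty := by
  obtain ⟨P, hP, hle⟩ := Ideal.exists_le_maximal _ h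
  obtain ⟨q, hq, -⟩ := exists_pf I P hP.isPrime hle
  exact ⟨q, hq⟩

theorem nm_le_absNorm (I : Im K m) {q : Pm K m} (hq : q ∈ pf I) :
    nm q.1 ≤ Ideal.absNorm I.1 := by
  have h0 : Ideal.absNorm I.1 ≠ 0 := by
    rw [Ne, Ideal.absNorm_eq_zero_iff]
    exact I.2.1
  exact Nat.le_of_dvd (Nat.pos_of_ne_zero h0) (Ideal.absNorm_dvd_absNorm_of_le (mem_pf.1 hq))

/-- a place as an ideal prime to `m` -/
def ofPm (q : Pm K m) : Im K m :=
  ⟨q.1.asIdeal, q.1.ne_bot, by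
    refine q.1.isMaximal.1.2 _ (lt_of_le_of_ne le_sup_left (fun h1 => q.2 ?_))
    rw [h1]
    exact Ideal.mem_sup_right (Ideal.mem_span_singleton_self _)⟩

theorem pf_ofPm (q : Pm K m) : pf (ofPm q) = {q} := by
  ext q'
  rw [mem_pf, Finset.mem_singleton]
  constructor
  · intro h
    have h1 := q.1.isMaximal.eq_of_le q'.1.isPrime.ne_top h
    exact (Subtype.ext (IsDedekindDomain.HeightOneSpectrum.ext h1)).symm
  · rintro rfl
    exact le_rfl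

theorem sup_pf (I : Im K m) (T : Finset (Pm K m)) (h : ∀ q ∈ pf I, q ∉ T) :
    gam I.1 ⊔ T.inf (fun q => gam q.1.asIdeal) = ⊤ := by
  refine gam_sup_inf fun q hq => ?_
  have h1 : ¬ I.1 ≤ q.1.asIdeal := fun h2 => h q (mem_pf.2 h2) hq
  rw [sup_comm]
  exact q.1.isMaximal.1.2 _ (lt_of_le_of_ne le_sup_left fun h2 => h1 (h2.symm ▸ le_sup_right))

theorem sup_base (I : Im K m) (T : Finset (Pm K m)) :
    gam (Ideal.span {(m : 𝓞 K)}) ⊔ (gam I.1 ⊓ T.inf (fun q => gam q.1.asIdeal)) = ⊤ := by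
  have h1 : Ideal.span {(m : 𝓞 K)} ⊔ I.1 = ⊤ := by rw [sup_comm]; exact I.2.2
  have h2 : Ideal.span {(m : 𝓞 K)} ⊔ ⨅ q ∈ T, q.1.asIdeal = ⊤ := by
    refine Ideal.sup_iInf_eq_top fun q _ => ?_
    rw [sup_comm]
    refine q.1.isMaximal.1.2 _ (lt_of_le_of_ne le_sup_left fun h3 => q.2 ?_)
    rw [h3]
    exact Ideal.mem_sup_right (Ideal.mem_span_singleton_self _)
  have h3 : Ideal.span {(m : 𝓞 K)} ⊔ (I.1 ⊓ ⨅ q ∈ T, q.1.asIdeal) = ⊤ := by
    rw [← Ideal.isCoprime_iff_sup_eq] at h1 h2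
    have h4 := h1.mul_right h2
    rw [Ideal.isCoprime_iff_sup_eq] at h4
    exact top_le_iff.1 (h4.ge.trans (sup_le_sup_left Ideal.mul_le_inf _))
  refine top_le_iff.1 ((gam_sup h3).ge.trans ?_)
  refine sup_le_sup_left (le_inf (gam_mono inf_le_left) ?_) _
  refine Finset.le_inf (fun q hq => gam_mono (inf_le_right.trans ?_))
  exact iInf₂_le q hq

/-- the product of the places dividing `I` divides `I` -/
theorem card_pf_le (I : Im K m) {z k : ℕ} (hz : 2 ≤ z) (h : ∀ q ∈ pf I, z < nm q.1)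
    (hI : Ideal.absNorm I.1 ≤ z ^ k) : (pf I).card ≤ k := by
  classical
  have hinj : Function.Injective (fun q : Pm K m => q.1.asIdeal) := fun q q' h =>
    Subtype.ext (IsDedekindDomain.HeightOneSpectrum.ext h)
  have h1 : ∏ P ∈ (pf I).image (fun q : Pm K m => q.1.asIdeal), P ∣ I.1 := by
    refine Finset.prod_primes_dvd _ (fun P hP => ?_) (fun P hP => ?_)
    · obtain ⟨q, -, rfl⟩ := Finset.mem_image.1 hP
      exact q.1.prime
    · obtain ⟨q, hq, rfl⟩ := Finset.mem_image.1 hP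
      exact Ideal.dvd_iff_le.2 (mem_pf.1 hq)
  rw [Finset.prod_image (fun q _ q' _ h => hinj h)] at h1
  have h0 : Ideal.absNorm I.1 ≠ 0 := by
    rw [Ne, Ideal.absNorm_eq_zero_iff]
    exact I.2.1
  have h2 : ∏ q ∈ pf I, nm q.1 ≤ Ideal.absNorm I.1 := by
    have h3 := Nat.le_of_dvd (Nat.pos_of_ne_zero h0) (map_dvd Ideal.absNorm h1)
    rwa [map_prod] at h3
  have h3 : z ^ (pf I).card ≤ ∏ q ∈ pf I, nm q.1 := by
    rw [← Finset.prod_const]
    exact Finset.prod_le_prod' fun q hq => (h q hq).le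
  exact (Nat.pow_le_pow_iff_right (by omega)).1 ((h3.trans h2).trans hI)

/-- `A P + B P' = D` in `(𝓞 K)[X]` (Bezout over `K`, clear denominators, take a natural multiple) -/
theorem exists_disc (P : (𝓞 K)[X]) (hirr : Irreducible (P.map (algebraMap (𝓞 K) K))) :
    ∃ D : ℕ, D ≠ 0 ∧ ∀ q : Ideal (𝓞 K), (D : 𝓞 K) ∉ q → ∀ t, P.eval t ∈ q →
      P.derivative.eval t ∉ q :=
  Pool.Agent.Helper94.CB.exists_disc P hirr

/-- the number of roots modulo `I` (file Roots: `exists_root_reps`) -/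
theorem card_Rt_le (P : (𝓞 K)[X]) (hP : P.Monic) (h3 : P.natDegree ≤ 3)
    (hD : ∀ q : Ideal (𝓞 K), (m : 𝓞 K) ∉ q → ∀ t, P.eval t ∈ q → P.derivative.eval t ∉ q)
    (I : Im K m) : Finite (Rt P I.1) ∧ Nat.card (Rt P I.1) ≤ 3 ^ (pf I).card := by
  classical
  have hc : ((pf I).image (fun q : Pm K m => q.1.asIdeal)).card = (pf I).card := by
    refine Finset.card_image_of_injective _ (fun q q' h => ?_)
    exact Subtype.ext (IsDedekindDomain.HeightOneSpectrum.ext h)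
  rw [← hc]
  refine card_roots_le P I.1 3 h3 hP (fun q hq hIq t ht => ?_) _ (fun q hq => ?_)
    (fun q hq => ?_) (fun q hq hIq => ?_)
  · obtain ⟨q', _, rfl⟩ := exists_pf I q hq hIq
    exact hD _ q'.2 t ht
  · obtain ⟨q', _, rfl⟩ := Finset.mem_image.1 hq
    exact q'.1.isPrime
  · obtain ⟨q', hq', rfl⟩ := Finset.mem_image.1 hq
    exact mem_pf.1 hq'
  · obtain ⟨q', hq', rfl⟩ := exists_pf I q hq hIq
    exact Finset.mem_image_of_mem _ hq'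

/-- **ADM.**  From `cof_sum` with `ε / 3 ^ k` and `card_Rt_le`, `card_pf_le`. -/
theorem adm_sum (K : Type) [Field K] [NumberField K] (k : ℕ) {ε : ℝ} (hε : 0 < ε) :
    ∃ J0 : ℕ, ∀ J : ℕ, J0 ≤ J → ∃ Z0 : ℕ, ∀ z : ℕ, Z0 ≤ z → ∀ a : ZMod (2 ^ J), IsUnit a →
      ∀ (m : ℕ) (P : (𝓞 K)[X]), P.Monic → P.natDegree ≤ 3 →
      (∀ q : Ideal (𝓞 K), (m : 𝓞 K) ∉ q → ∀ t, P.eval t ∈ q → P.derivative.eval t ∉ q) →
      ∀ A : Finset (Σ I : Im K m, Rt P I.1),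
      (∀ x ∈ A, x.1.1 ≠ ⊤ ∧ ((Ideal.absNorm x.1.1 : ℕ) : ZMod (2 ^ J)) = a ∧
        Ideal.absNorm x.1.1 ≤ z ^ k ∧ ∀ q ∈ pf x.1, z < nm q.1) →
      ∑ x ∈ A, (1 : ℝ) / Ideal.absNorm x.1.1 ≤ ε := by
  obtain ⟨J0, hJ0⟩ := Pool.Agent.Helper75.CB.adm_aux K k hε
  refine ⟨J0, fun J hJ => ?_⟩
  obtain ⟨Z0, hZ0⟩ := hJ0 J hJ
  refine ⟨max Z0 2, fun z hz a ha m P hP h3 hD A hA => ?_⟩
  apply hZ0 z ((le_max_left _ _).trans hz) a ha _ _ A
  intro x hx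
  obtain ⟨h1, h2, h4, h5⟩ := hA x hx
  obtain ⟨g1, g2⟩ := card_Rt_le P hP h3 hD x.1
  refine ⟨x.1.2.1, h1, h2, h4, ?_, g1, g2.trans ?_⟩
  · intro Q hQ hle
    obtain ⟨q, hq, rfl⟩ := exists_pf x.1 Q hQ hle
    exact h5 q hq
  · exact Nat.pow_le_pow_right (by norm_num)
      (card_pf_le x.1 ((le_max_right _ _).trans hz) h5 h4)

/-- **COF3.**  The ideal `(x) / 𝔮`; its norm times `N 𝔮` is `|N x|`, `N x ≡ r ^ (e n)` modulo `m`. -/
theorem cofactor3 {J r e : ℕ} (hJm : 2 ^ J ∣ m) (hr : r ≡ 5 [MOD 2 ^ J]) (hrm : r.Coprime m)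
    (he : 1 ≤ e) (hJ : 5 ^ (e * Module.finrank ℚ K) + 2 < 2 ^ J) {x : 𝓞 K}
    (hx : (m : 𝓞 K) ∣ x - (r : 𝓞 K) ^ e) (q : Pl K) (hq : nm q ≡ 1 [MOD 2 ^ J])
    (hxq : x ∈ q.asIdeal) :
    ∃ I : Im K m, I.1 ≠ ⊤ ∧ x ∈ I.1 ∧
      Ideal.absNorm I.1 * nm q = (Algebra.norm ℤ x).natAbs ∧
      (((Ideal.absNorm I.1 : ℕ) : ZMod (2 ^ J)) = 5 ^ (e * Module.finrank ℚ K) ∨
        ((Ideal.absNorm I.1 : ℕ) : ZMod (2 ^ J)) = - 5 ^ (e * Module.finrank ℚ K)) := by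
  exact Pool.Agent.Helper8.CB.cofactor3 hJm hr hrm he hJ hx q hq hxq

end Pool.Agent.Helper23.CB
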