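import Pool.Agent.Helper4.CB.COV

/-!
# Project CB: lattices `{(u, v) : u - t v ∈ b}` in `O × O`, shortest vectors and covering radius
-/

set_option autoImplicit false

namespace Pool.Agent.Helper23.CB

open Finset Module Pool.Agent.Helper4.CB

section Packing

/-- **L1.** Packing: a free group of rank `r` with a size function. -/
theorem packing {H : Type*} [AddCommGroup H] [Module.Free ℤ H] [Module.Finite ℤ H] {r : ℕ}
    (hr : finrank ℤ H ≤ r) (f : H → ℕ) (hsub : ∀ x y, f (x - y) ≤ f x + f y)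
    (hmul : ∀ (k : ℕ) (x : H), k * f x ≤ f (k • x)) {l ρ : ℕ} (hl : 0 < l)
    (hmin : ∀ x, x ≠ 0 → l ≤ f x) (A : Finset H) (hA : ∀ x ∈ A, f x ≤ ρ) :
    A.card ≤ (2 * ρ / l + 1) ^ r := by
  classical
  obtain ⟨k, hk⟩ : ∃ k, k = 2 * ρ / l + 1 := ⟨_, rfl⟩
  rw [← hk]
  have hk0 : 0 < k := by rw [hk]; exact Nat.succ_pos _
  have : NeZero k := ⟨hk0.ne'⟩
  let b := Module.finBasis ℤ H
  let φ : H → Fin (finrank ℤ H) → ZMod k := fun x i => ((b.repr x i : ℤ) : ZMod k)
  have hinj : Set.InjOn φ A := by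
    intro x hx y hy hxy
    by_contra hne
    have hdvd : ∀ i, (k : ℤ) ∣ b.repr (x - y) i := by
      intro i
      have := congrFun hxy i
      rw [map_sub, Finsupp.sub_apply]
      exact (ZMod.intCast_eq_intCast_iff_dvd_sub _ _ _).1 this.symm
    choose c hc using hdvd
    have hz : x - y = k • ∑ i, c i • b i := by
      rw [← b.sum_repr (x - y), Finset.smul_sum]
      refine Finset.sum_congr rfl fun i _ => ?_
      rw [hc i, ← natCast_zsmul, smul_smul]
    set z := ∑ i, c i • b i with hzdef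
    have hz0 : z ≠ 0 := by
      intro h0
      rw [h0, smul_zero] at hz
      exact hne (sub_eq_zero.1 hz)
    have h1 := hmul k z
    rw [← hz] at h1
    have h2 := (hsub x y).trans (Nat.add_le_add (hA x hx) (hA y hy))
    have h3 : k * l ≤ 2 * ρ := by
      calc k * l ≤ k * f z := Nat.mul_le_mul_left _ (hmin z hz0)
        _ ≤ f (x - y) := h1
        _ ≤ 2 * ρ := by omega
    have h4 : 2 * ρ < k * l := by
      rw [hk, mul_comm _ l]
      exact Nat.lt_mul_div_succ (2 * ρ) hl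
    omega
  calc A.card = (A.image φ).card := (Finset.card_image_of_injOn hinj).symm
    _ ≤ Fintype.card (Fin (finrank ℤ H) → ZMod k) := Finset.card_le_univ _
    _ = k ^ finrank ℤ H := by rw [Fintype.card_fun, ZMod.card, Fintype.card_fin]
    _ ≤ k ^ r := Nat.pow_le_pow_right hk0 hr

end Packing

variable {O : Type} [CommRing O] {n : ℕ}

/-- the size of an element: the largest coordinate -/
noncomputable def sz (b : Basis (Fin n) ℤ O) (x : O) : ℕ := univ.sup fun i => (b.repr x i).natAbs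

/-- the size of a pair -/
noncomputable def sz2 (b : Basis (Fin n) ℤ O) (w : O × O) : ℕ := max (sz b w.1) (sz b w.2)

theorem sz_le {b : Basis (Fin n) ℤ O} {x : O} {B : ℕ} :
    sz b x ≤ B ↔ ∀ i, |b.repr x i| ≤ B := by
  unfold sz
  rw [Finset.sup_le_iff]
  constructor
  · intro h i
    rw [Int.abs_eq_natAbs]
    exact_mod_cast h i (mem_univ _)
  · intro h i _
    have := h i
    rw [Int.abs_eq_natAbs] at this
    exact_mod_cast this

theorem abs_repr_le (b : Basis (Fin n) ℤ O) (x : O) (i : Fin n) : |b.repr x i| ≤ sz b x :=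
  sz_le.1 le_rfl i

theorem sz2_le {b : Basis (Fin n) ℤ O} {w : O × O} {B : ℕ} :
    sz2 b w ≤ B ↔ sz b w.1 ≤ B ∧ sz b w.2 ≤ B := max_le_iff

theorem sz_eq_zero {b : Basis (Fin n) ℤ O} {x : O} (h : sz b x = 0) : x = 0 := by
  have h1 : ∀ i, b.repr x i = 0 := by
    intro i
    have := abs_repr_le b x i
    rw [h] at this
    have h2 := abs_nonneg (b.repr x i)
    push_cast at this
    have h3 : |b.repr x i| = 0 := le_antisymm this h2
    exact abs_eq_zero.1 h3
  have : b.repr x = 0 := Finsupp.ext h1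
  exact b.repr.map_eq_zero_iff.1 this

theorem sz_zero (b : Basis (Fin n) ℤ O) : sz b 0 = 0 := by
  apply Nat.le_zero.1
  rw [sz_le]
  intro i
  simp

theorem sz2_eq_zero {b : Basis (Fin n) ℤ O} {w : O × O} (h : sz2 b w = 0) : w = 0 := by
  have h1 := sz2_le.1 h.le
  exact Prod.ext (sz_eq_zero (Nat.le_zero.1 h1.1)) (sz_eq_zero (Nat.le_zero.1 h1.2))

theorem sz_add (b : Basis (Fin n) ℤ O) (x y : O) : sz b (x + y) ≤ sz b x + sz b y := by
  rw [sz_le]
  intro i
  rw [map_add, Finsupp.add_apply]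
  push_cast
  exact (abs_add_le _ _).trans (add_le_add (abs_repr_le b x i) (abs_repr_le b y i))

theorem sz_sub (b : Basis (Fin n) ℤ O) (x y : O) : sz b (x - y) ≤ sz b x + sz b y := by
  rw [sz_le]
  intro i
  rw [map_sub, Finsupp.sub_apply]
  push_cast
  exact (abs_sub _ _).trans (add_le_add (abs_repr_le b x i) (abs_repr_le b y i))

theorem le_sz_nsmul (b : Basis (Fin n) ℤ O) (k : ℕ) (x : O) : k * sz b x ≤ sz b (k • x) := by
  rcases Nat.eq_zero_or_pos k with rfl | hk
  · simp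
  rw [mul_comm, ← Nat.le_div_iff_mul_le hk]
  unfold sz
  rw [Finset.sup_le_iff]
  intro i hi
  rw [Nat.le_div_iff_mul_le hk]
  refine le_trans (le_of_eq ?_) (Finset.le_sup (f := fun i => (b.repr (k • x) i).natAbs) hi)
  rw [map_nsmul, Finsupp.smul_apply, nsmul_eq_mul, Int.natAbs_mul, Int.natAbs_natCast, mul_comm]

theorem sz_sum_le {ι : Type*} (b : Basis (Fin n) ℤ O) (s : Finset ι) (f : ι → O) :
    sz b (∑ i ∈ s, f i) ≤ ∑ i ∈ s, sz b (f i) := by
  classical
  induction s using Finset.induction_on with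
  | empty => simp [sz_zero]
  | insert a s ha ih =>
    rw [Finset.sum_insert ha, Finset.sum_insert ha]
    exact (sz_add b _ _).trans (Nat.add_le_add_left ih _)

theorem sz2_sub (b : Basis (Fin n) ℤ O) (x y : O × O) : sz2 b (x - y) ≤ sz2 b x + sz2 b y := by
  have h1 := sz2_le.1 (le_refl (sz2 b x))
  have h2 := sz2_le.1 (le_refl (sz2 b y))
  rw [sz2_le]
  exact ⟨(sz_sub b _ _).trans (Nat.add_le_add h1.1 h2.1),
    (sz_sub b _ _).trans (Nat.add_le_add h1.2 h2.2)⟩

theorem sz2_add (b : Basis (Fin n) ℤ O) (x y : O × O) : sz2 b (x + y) ≤ sz2 b x + sz2 b y := by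
  have h1 := sz2_le.1 (le_refl (sz2 b x))
  have h2 := sz2_le.1 (le_refl (sz2 b y))
  rw [sz2_le]
  exact ⟨(sz_add b _ _).trans (Nat.add_le_add h1.1 h2.1),
    (sz_add b _ _).trans (Nat.add_le_add h1.2 h2.2)⟩

theorem sz2_sum_le {ι : Type*} (b : Basis (Fin n) ℤ O) (s : Finset ι) (f : ι → O × O) :
    sz2 b (∑ i ∈ s, f i) ≤ ∑ i ∈ s, sz2 b (f i) := by
  rw [sz2_le, Prod.fst_sum, Prod.snd_sum]
  constructor
  · exact (sz_sum_le b s _).trans (Finset.sum_le_sum fun i _ => (sz2_le.1 le_rfl).1)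
  · exact (sz_sum_le b s _).trans (Finset.sum_le_sum fun i _ => (sz2_le.1 le_rfl).2)

theorem le_sz2_nsmul (b : Basis (Fin n) ℤ O) (k : ℕ) (x : O × O) :
    k * sz2 b x ≤ sz2 b (k • x) := by
  unfold sz2
  rcases le_total (sz b x.1) (sz b x.2) with h | h
  · rw [max_eq_right h]
    exact le_max_of_le_right (le_sz_nsmul b k x.2)
  · rw [max_eq_left h]
    exact le_max_of_le_left (le_sz_nsmul b k x.1)

/-- sizes of products -/
theorem exists_sz_mul (b : Basis (Fin n) ℤ O) : ∃ C : ℕ, ∀ x y : O,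
    sz b (x * y) ≤ C * (sz b x * sz b y) := by
  obtain ⟨C, hC⟩ := cov_mul b
  refine ⟨C, fun x y => ?_⟩
  rw [sz_le]
  push_cast
  exact hC x y _ _ (abs_repr_le b x) (abs_repr_le b y)

end Pool.Agent.Helper23.CB
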