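import Pool.Agent.Helper23.CB.Lat

/-!
# CB, degree 3 (and 1, 2): frames of the lattice facts
-/

set_option autoImplicit false

namespace Pool.Agent.Helper23.CB

open Finset Module Pool.Agent.Helper4.CB

variable {O : Type} [CommRing O] [IsDomain O] {n : ℕ}

/-- the lattice `{(u, v) : u - s v ∈ b}` -/
def Lam (b : Ideal O) (s : O) : Submodule O (O × O) where
  carrier := {w | w.1 - s * w.2 ∈ b}
  add_mem' := by
    intro x y hx hy
    simp only [Set.mem_ofPred_eq, Prod.fst_add, Prod.snd_add] at *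
    have : x.1 + y.1 - s * (x.2 + y.2) = (x.1 - s * x.2) + (y.1 - s * y.2) := by ring
    rw [this]
    exact b.add_mem hx hy
  zero_mem' := by simp
  smul_mem' := by
    intro c x hx
    simp only [Set.mem_ofPred_eq, Prod.smul_fst, Prod.smul_snd, smul_eq_mul] at *
    have : c * x.1 - s * (c * x.2) = c * (x.1 - s * x.2) := by ring
    rw [this]
    exact b.mul_mem_left c hx

omit [IsDomain O] in
theorem mem_Lam {b : Ideal O} {s : O} {w : O × O} : w ∈ Lam b s ↔ w.1 - s * w.2 ∈ b := Iff.rfl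

omit [IsDomain O] in
/-- the index of `Lam b s` -/
theorem Lam_index (b : Ideal O) (s : O) :
    (Lam b s).toAddSubgroup.index = Nat.card (O ⧸ b) := by
  let φ : O × O →+ O ⧸ b :=
    { toFun := fun w => Ideal.Quotient.mk b (w.1 - s * w.2)
      map_zero' := by simp
      map_add' := by
        intro x y
        rw [← map_add]
        congr 1
        simp only [Prod.fst_add, Prod.snd_add]
        ring }
  have hφ : Function.Surjective φ := by
    intro y
    obtain ⟨x, rfl⟩ := Ideal.Quotient.mk_surjective y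
    exact ⟨(x, 0), by simp [φ]⟩
  have hker : (Lam b s).toAddSubgroup = φ.ker := by
    ext w
    rw [AddMonoidHom.mem_ker, Submodule.mem_toAddSubgroup, mem_Lam]
    exact Ideal.Quotient.eq_zero_iff_mem.symm
  rw [hker, AddSubgroup.index_ker, AddMonoidHom.range_eq_top.2 hφ]
  exact Nat.card_congr AddSubgroup.topEquiv.toEquiv

omit [IsDomain O] in
/-- the points of a subgroup `H` of `M` of rank at most `r` -/
theorem packing' {M : Type*} [AddCommGroup M] (H : Submodule ℤ M) [Module.Free ℤ H]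
    [Module.Finite ℤ H] {r : ℕ} (hr : finrank ℤ H ≤ r) (f : M → ℕ)
    (hsub : ∀ x y, f (x - y) ≤ f x + f y) (hmul : ∀ (k : ℕ) (x : M), k * f x ≤ f (k • x))
    {l ρ : ℕ} (hl : 0 < l) (hmin : ∀ x ∈ H, x ≠ 0 → l ≤ f x) (A : Finset M)
    (hA : ∀ x ∈ A, x ∈ H ∧ f x ≤ ρ) : A.card ≤ (2 * ρ / l + 1) ^ r := by
  classical
  let A' : Finset H := A.attach.image (fun x => ⟨x.1, (hA x.1 x.2).1⟩)
  have h1 : A'.card = A.card := by
    rw [Finset.card_image_of_injective, Finset.card_attach]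
    intro x y hxy
    have := congrArg (fun z : H => (z : M)) hxy
    exact Subtype.ext this
  rw [← h1]
  refine packing hr (fun x : H => f x) (fun x y => ?_) (fun k x => ?_) hl (fun x hx => ?_) A' ?_
  · exact hsub x y
  · exact hmul k x
  · exact hmin x x.2 (fun h => hx (Subtype.ext h))
  · intro x hx
    obtain ⟨y, _, rfl⟩ := Finset.mem_image.1 hx
    exact (hA y.1 y.2).2

omit [IsDomain O] in
theorem finrank_O (B : Basis (Fin n) ℤ O) : finrank ℤ O = n := by
  rw [Module.finrank_eq_card_basis B, Fintype.card_fin]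

/-- the points of a lattice on the line of `w1` -/
theorem count_line (B : Basis (Fin n) ℤ O) (Λ : Submodule O (O × O)) {l ρ : ℕ} (hl : 0 < l)
    (hmin : ∀ w ∈ Λ, w ≠ 0 → l ≤ sz2 B w) (w1 : O × O) (hw1 : w1 ≠ 0) (A : Finset (O × O))
    (hA : ∀ w ∈ A, w ∈ Λ ∧ w1.1 * w.2 = w1.2 * w.1 ∧ sz2 B w ≤ ρ) :
    A.card ≤ (2 * ρ / l + 1) ^ n := by
  classical
  have : Module.Free ℤ O := Module.Free.of_basis B
  have : Module.Finite ℤ O := Module.Finite.of_basis B
  let H : Submodule ℤ (O × O) :=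
    { carrier := {w | w ∈ Λ ∧ w1.1 * w.2 = w1.2 * w.1}
      add_mem' := by
        rintro x y ⟨hx, hx'⟩ ⟨hy, hy'⟩
        refine ⟨Λ.add_mem hx hy, ?_⟩
        simp only [Prod.fst_add, Prod.snd_add, mul_add, hx', hy']
      zero_mem' := by
        refine ⟨Λ.zero_mem, ?_⟩
        simp
      smul_mem' := by
        rintro c x ⟨hx, hx'⟩
        refine ⟨Λ.toAddSubgroup.zsmul_mem hx c, ?_⟩
        simp only [Prod.smul_fst, Prod.smul_snd, mul_smul_comm, hx'] }
  have hrank : finrank ℤ H ≤ n := by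
    rw [← finrank_O B]
    by_cases h1 : w1.1 = 0
    · have h2 : w1.2 ≠ 0 := fun h => hw1 (Prod.ext h1 h)
      refine LinearMap.finrank_le_finrank_of_injective
        (f := (LinearMap.snd ℤ O O).comp H.subtype) ?_
      rw [← LinearMap.ker_eq_bot, LinearMap.ker_eq_bot']
      rintro ⟨x, hx, hx'⟩ h0
      have h0' : x.2 = 0 := h0
      rw [h0', mul_zero] at hx'
      have : x.1 = 0 := (mul_eq_zero.1 hx'.symm).resolve_left h2
      exact Subtype.ext (Prod.ext this h0')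
    · refine LinearMap.finrank_le_finrank_of_injective
        (f := (LinearMap.fst ℤ O O).comp H.subtype) ?_
      rw [← LinearMap.ker_eq_bot, LinearMap.ker_eq_bot']
      rintro ⟨x, hx, hx'⟩ h0
      have h0' : x.1 = 0 := h0
      rw [h0', mul_zero] at hx'
      have : x.2 = 0 := (mul_eq_zero.1 hx').resolve_left h1
      exact Subtype.ext (Prod.ext h0' this)
  refine packing' H hrank (sz2 B) (sz2_sub B) (le_sz2_nsmul B) hl (fun x hx hx0 => hmin x hx.1 hx0)
    A (fun x hx => ⟨⟨(hA x hx).1, (hA x hx).2.1⟩, (hA x hx).2.2⟩)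

/-- the box `[0, R]` in `O` -/
noncomputable def bxO (B : Basis (Fin n) ℤ O) (R : ℕ) : Finset O :=
  (Fintype.piFinset (fun _ : Fin n => Ico (0 : ℤ) (R + 1))).map B.equivFun.symm.toEquiv.toEmbedding

omit [IsDomain O] in
theorem bxO_card (B : Basis (Fin n) ℤ O) (R : ℕ) : (bxO B R).card = (R + 1) ^ n := by
  unfold bxO
  rw [Finset.card_map, Fintype.card_piFinset]
  simp only [Int.card_Ico, sub_zero, Finset.prod_const, Finset.card_univ, Fintype.card_fin]
  congr 1

omit [IsDomain O] in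
theorem mem_bxO {B : Basis (Fin n) ℤ O} {R : ℕ} {x : O} (hx : x ∈ bxO B R) (i : Fin n) :
    0 ≤ B.repr x i ∧ B.repr x i ≤ R := by
  unfold bxO at hx
  rw [Finset.mem_map] at hx
  obtain ⟨f, hf, rfl⟩ := hx
  rw [Fintype.mem_piFinset] at hf
  have h := hf i
  rw [Finset.mem_Ico] at h
  have h2 : B.repr (B.equivFun.symm f) i = f i := by
    rw [← Basis.equivFun_apply, LinearEquiv.apply_symm_apply]
  have h3 : B.repr (B.equivFun.symm.toEquiv.toEmbedding f) i = f i := h2
  rw [h3]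
  omega

omit [IsDomain O] in
theorem sz_sub_bxO {B : Basis (Fin n) ℤ O} {R : ℕ} {x y : O} (hx : x ∈ bxO B R)
    (hy : y ∈ bxO B R) : sz B (x - y) ≤ R := by
  rw [sz_le]
  intro i
  have h1 := mem_bxO hx i
  have h2 := mem_bxO hy i
  rw [map_sub, Finsupp.sub_apply, abs_le]
  omega

omit [IsDomain O] in
/-- a nonzero vector of size at most `R` -/
theorem exists_short (B : Basis (Fin n) ℤ O) (Λ : Submodule O (O × O)) (R : ℕ)
    (h0 : Λ.toAddSubgroup.index ≠ 0) (h : Λ.toAddSubgroup.index < (R + 1) ^ (2 * n)) :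
    ∃ w ∈ Λ, w ≠ 0 ∧ sz2 B w ≤ R := by
  classical
  have : Λ.toAddSubgroup.FiniteIndex := ⟨h0⟩
  have : Fintype ((O × O) ⧸ Λ.toAddSubgroup) := Fintype.ofFinite _
  have hc : (univ : Finset ((O × O) ⧸ Λ.toAddSubgroup)).card < (bxO B R ×ˢ bxO B R).card := by
    rw [Finset.card_univ, ← Nat.card_eq_fintype_card, Finset.card_product, bxO_card, ← pow_add,
      ← two_mul]
    exact h
  obtain ⟨x, hx, y, hy, hxy, he⟩ := Finset.exists_ne_map_eq_of_card_lt_of_maps_to hc
    (f := fun w => (QuotientAddGroup.mk w : (O × O) ⧸ Λ.toAddSubgroup))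
    (fun w _ => Finset.mem_univ _)
  rw [Finset.mem_product] at hx hy
  have he' := QuotientAddGroup.eq.1 he
  refine ⟨y - x, ?_, fun h => hxy (sub_eq_zero.1 h).symm, ?_⟩
  · have : y - x = -x + y := by abel
    rw [this]
    exact he'
  · exact sz2_le.2 ⟨sz_sub_bxO hy.1 hx.1, sz_sub_bxO hy.2 hx.2⟩

/-- a second vector, not on the line of the first one -/
theorem exists_second (B : Basis (Fin n) ℤ O) (Λ : Submodule O (O × O)) (l R : ℕ)
    (h0 : Λ.toAddSubgroup.index ≠ 0) (hl : 0 < l) (hmin : ∀ w ∈ Λ, w ≠ 0 → l ≤ sz2 B w)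
    (hlR : l ≤ R) (h : 3 ^ n * Λ.toAddSubgroup.index ≤ (R * l) ^ n) (w1 : O × O) (hw1 : w1 ≠ 0) :
    ∃ w2 ∈ Λ, w1.1 * w2.2 ≠ w1.2 * w2.1 ∧ sz2 B w2 ≤ R := by
  classical
  have hR : 0 < R := lt_of_lt_of_le hl hlR
  have : Λ.toAddSubgroup.FiniteIndex := ⟨h0⟩
  have : Fintype ((O × O) ⧸ Λ.toAddSubgroup) := Fintype.ofFinite _
  have hN : (2 * R / l + 1) * l ≤ 3 * R := by
    have := Nat.div_mul_le_self (2 * R) l
    nlinarith
  have h1 : Λ.toAddSubgroup.index * (2 * R / l + 1) ^ n < (R + 1) ^ (2 * n) := by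
    have h2 : Λ.toAddSubgroup.index * (2 * R / l + 1) ^ n ≤ R ^ (2 * n) := by
      have h3 : (Λ.toAddSubgroup.index * (2 * R / l + 1) ^ n) * l ^ n ≤ R ^ (2 * n) * l ^ n := by
        calc (Λ.toAddSubgroup.index * (2 * R / l + 1) ^ n) * l ^ n
            = Λ.toAddSubgroup.index * ((2 * R / l + 1) * l) ^ n := by rw [mul_pow]; ring
          _ ≤ Λ.toAddSubgroup.index * (3 * R) ^ n :=
            Nat.mul_le_mul_left _ (Nat.pow_le_pow_left hN n)
          _ = (3 ^ n * Λ.toAddSubgroup.index) * R ^ n := by rw [mul_pow]; ring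
          _ ≤ (R * l) ^ n * R ^ n := Nat.mul_le_mul_right _ h
          _ = R ^ (2 * n) * l ^ n := by rw [mul_pow, two_mul, pow_add]; ring
      exact Nat.le_of_mul_le_mul_right h3 (pow_pos hl n)
    rcases Nat.eq_zero_or_pos n with hn | hn
    · subst hn
      exfalso
      have hOO : Subsingleton O := by
        refine ⟨fun x y => ?_⟩
        apply B.repr.injective
        ext i
        exact i.elim0
      exact hw1 (Subsingleton.elim _ _)
    · exact h2.trans_lt (Nat.pow_lt_pow_left (Nat.lt_succ_self R) (by omega))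
  have h2 : (univ : Finset ((O × O) ⧸ Λ.toAddSubgroup)).card * (2 * R / l + 1) ^ n <
      (bxO B R ×ˢ bxO B R).card := by
    rw [Finset.card_univ, ← Nat.card_eq_fintype_card, Finset.card_product, bxO_card, ← pow_add,
      ← two_mul]
    exact h1
  obtain ⟨y, _, hy⟩ := Finset.exists_lt_card_fiber_of_mul_lt_card_of_maps_to
    (f := fun w => (QuotientAddGroup.mk w : (O × O) ⧸ Λ.toAddSubgroup))
    (fun w _ => Finset.mem_univ _) h2
  set A := (bxO B R ×ˢ bxO B R).filter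
    (fun w => (QuotientAddGroup.mk w : (O × O) ⧸ Λ.toAddSubgroup) = y) with hA
  have hAne : A.Nonempty := by
    rw [← Finset.card_pos]
    omega
  obtain ⟨y0, hy0⟩ := hAne
  by_contra hcon
  push Not at hcon
  have hmem : ∀ w ∈ A, w - y0 ∈ Λ ∧ sz2 B (w - y0) ≤ R := by
    intro w hw
    rw [hA, Finset.mem_filter, Finset.mem_product] at hw hy0
    refine ⟨?_, sz2_le.2 ⟨sz_sub_bxO hw.1.1 hy0.1.1, sz_sub_bxO hw.1.2 hy0.1.2⟩⟩
    have h4 := QuotientAddGroup.eq.1 (hy0.2.trans hw.2.symm)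
    have : w - y0 = -y0 + w := by abel
    rw [this]
    exact h4
  have h5 : (A.image (fun w => w - y0)).card ≤ (2 * R / l + 1) ^ n := by
    refine count_line B Λ hl hmin w1 hw1 _ ?_
    intro w hw
    obtain ⟨w', hw', rfl⟩ := Finset.mem_image.1 hw
    refine ⟨(hmem w' hw').1, ?_, (hmem w' hw').2⟩
    by_contra hne
    have := hcon _ (hmem w' hw').1 hne
    have h6 := (hmem w' hw').2
    omega
  rw [Finset.card_image_of_injective _ (sub_left_injective)] at h5
  omega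

/-- **L2**: the covering radius of an `O`-submodule of `O × O` -/
theorem radius (B : Basis (Fin n) ℤ O) (hn : 0 < n) : ∃ C : ℕ, ∀ (Λ : Submodule O (O × O))
    (l R : ℕ), Λ.toAddSubgroup.index ≠ 0 → 0 < l → (∀ w ∈ Λ, w ≠ 0 → l ≤ sz2 B w) → l ≤ R →
    3 ^ n * Λ.toAddSubgroup.index ≤ (R * l) ^ n → ∀ z : O × O, ∃ w ∈ Λ, sz2 B (z - w) ≤ C * R := by
  classical
  obtain ⟨C1, hC1⟩ := exists_sz_mul B
  refine ⟨2 * C1, fun Λ l R h0 hl hmin hlR h z => ?_⟩
  have hR : 0 < R := lt_of_lt_of_le hl hlR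
  have : Module.Free ℤ O := Module.Free.of_basis B
  have : Module.Finite ℤ O := Module.Finite.of_basis B
  -- the first vector
  have hidx : Λ.toAddSubgroup.index < (R + 1) ^ (2 * n) := by
    have h2 : Λ.toAddSubgroup.index ≤ (R * l) ^ n :=
      le_trans (Nat.le_mul_of_pos_left _ (by positivity)) h
    calc Λ.toAddSubgroup.index ≤ (R * l) ^ n := h2
      _ ≤ (R * R) ^ n := Nat.pow_le_pow_left (Nat.mul_le_mul_left _ hlR) n
      _ = R ^ (2 * n) := by rw [← pow_two, ← pow_mul]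
      _ < (R + 1) ^ (2 * n) := Nat.pow_lt_pow_left (Nat.lt_succ_self R) (by omega)
  obtain ⟨w1, hw1, hw10, hw1R⟩ := exists_short B Λ R h0 hidx
  obtain ⟨w2, hw2, hD, hw2R⟩ := exists_second B Λ l R h0 hl hmin hlR h w1 hw10
  set D := w1.1 * w2.2 - w1.2 * w2.1 with hDdef
  have hD0 : D ≠ 0 := sub_ne_zero.2 hD
  have : Finite (O ⧸ Ideal.span {D}) :=
    Ideal.finiteQuotientOfFreeOfNeBot _ (fun h => hD0 (Ideal.span_singleton_eq_bot.1 h))
  obtain ⟨N, hN⟩ : ∃ N : ℕ, N = Nat.card (O ⧸ Ideal.span {D}) := ⟨_, rfl⟩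
  have hN0 : 0 < N := by rw [hN]; exact Nat.card_pos
  obtain ⟨c, hc⟩ : ∃ c : O, c * D = (N : O) := by
    have h1 : N • (1 : O ⧸ Ideal.span {D}) = 0 := by rw [hN]; exact card_nsmul_eq_zero'
    rw [nsmul_eq_mul, mul_one, ← map_natCast (Ideal.Quotient.mk (Ideal.span {D})),
      Ideal.Quotient.eq_zero_iff_mem, Ideal.mem_span_singleton'] at h1
    exact h1
  set α := c * (z.1 * w2.2 - z.2 * w2.1) with hα
  set β := c * (w1.1 * z.2 - w1.2 * z.1) with hβ
  have hz1 : α * w1.1 + β * w2.1 = N * z.1 := by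
    rw [← hc, hα, hβ, hDdef]; ring
  have hz2 : α * w1.2 + β * w2.2 = N * z.2 := by
    rw [← hc, hα, hβ, hDdef]; ring
  -- rounding
  have key : ∀ x : O, ∃ y r : O, x = N * y + r ∧ sz B r ≤ N := by
    intro x
    refine ⟨∑ j, (B.repr x j / (N : ℤ)) • B j, ∑ j, (B.repr x j % (N : ℤ)) • B j, ?_, ?_⟩
    · conv_lhs => rw [← B.sum_repr x]
      rw [← nsmul_eq_mul, Finset.smul_sum, ← Finset.sum_add_distrib]
      refine Finset.sum_congr rfl fun j _ => ?_
      rw [← natCast_zsmul, smul_smul, ← add_smul, Int.mul_ediv_add_emod]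
    · rw [sz_le]
      intro i
      have h1 : B.repr (∑ j, (B.repr x j % (N : ℤ)) • B j) i = B.repr x i % (N : ℤ) := by
        rw [B.repr_sum_self]
      rw [h1]
      have hN' : (0 : ℤ) < N := by exact_mod_cast hN0
      have h2 := Int.emod_nonneg (B.repr x i) hN'.ne'
      have h3 := Int.emod_lt_of_pos (B.repr x i) hN'
      rw [abs_of_nonneg h2]
      exact h3.le
  obtain ⟨α', ra, hαe, hra⟩ := key α
  obtain ⟨β', rb, hβe, hrb⟩ := key β
  refine ⟨α' • w1 + β' • w2, Λ.add_mem (Λ.smul_mem _ hw1) (Λ.smul_mem _ hw2), ?_⟩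
  have hmain : N • (z - (α' • w1 + β' • w2)) = (ra * w1.1 + rb * w2.1, ra * w1.2 + rb * w2.2) := by
    apply Prod.ext
    · rw [Prod.smul_fst, nsmul_eq_mul, Prod.fst_sub, Prod.fst_add, Prod.smul_fst, Prod.smul_fst,
        smul_eq_mul, smul_eq_mul, mul_sub, ← hz1, hαe, hβe]
      ring
    · rw [Prod.smul_snd, nsmul_eq_mul, Prod.snd_sub, Prod.snd_add, Prod.smul_snd, Prod.smul_snd,
        smul_eq_mul, smul_eq_mul, mul_sub, ← hz2, hαe, hβe]
      ring
  have hb : ∀ x y u v : O, sz B x ≤ N → sz B y ≤ N → sz B u ≤ R → sz B v ≤ R →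
      sz B (x * u + y * v) ≤ N * (2 * C1 * R) := by
    intro x y u v hx hy hu hv
    calc sz B (x * u + y * v) ≤ sz B (x * u) + sz B (y * v) := sz_add B _ _
      _ ≤ C1 * (sz B x * sz B u) + C1 * (sz B y * sz B v) := Nat.add_le_add (hC1 _ _) (hC1 _ _)
      _ ≤ C1 * (N * R) + C1 * (N * R) :=
        Nat.add_le_add (Nat.mul_le_mul_left _ (Nat.mul_le_mul hx hu))
          (Nat.mul_le_mul_left _ (Nat.mul_le_mul hy hv))
      _ = N * (2 * C1 * R) := by ring
  have hfin : N * sz2 B (z - (α' • w1 + β' • w2)) ≤ N * (2 * C1 * R) := by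
    refine (le_sz2_nsmul B N _).trans ?_
    rw [hmain, sz2_le]
    have h1 := sz2_le.1 hw1R
    have h2 := sz2_le.1 hw2R
    exact ⟨hb _ _ _ _ hra hrb h1.1 h2.1, hb _ _ _ _ hra hrb h1.2 h2.2⟩
  exact Nat.le_of_mul_le_mul_left hfin hN0

/-- points of `Lam b s` in a box: group by the determinant with `w1` -/
theorem count_Lam (B : Basis (Fin n) ℤ O) : ∃ C : ℕ, ∀ (b : Ideal O) (s : O) (l ρ μ : ℕ),
    0 < l → 0 < μ → (∀ w ∈ Lam b s, w ≠ 0 → l ≤ sz2 B w) → (∀ x ∈ b, x ≠ 0 → μ ≤ sz B x) →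
    ∀ w1 ∈ Lam b s, w1 ≠ 0 → ∀ A : Finset (O × O), (∀ w ∈ A, w ∈ Lam b s) →
    (∀ w ∈ A, ∀ w' ∈ A, sz2 B (w - w') ≤ ρ) →
    A.card ≤ (2 * ρ / l + 1) ^ n * (2 * (C * ρ * sz2 B w1) / μ + 1) ^ n := by
  classical
  obtain ⟨C1, hC1⟩ := exists_sz_mul B
  have : Module.Free ℤ O := Module.Free.of_basis B
  have : Module.Finite ℤ O := Module.Finite.of_basis B
  refine ⟨2 * C1, fun b s l ρ μ hl hμ hmin hμmin w1 hw1 hw10 A hA hdiff => ?_⟩
  rcases A.eq_empty_or_nonempty with rfl | ⟨w0, hw0⟩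
  · simp
  let D : O × O → O := fun w => w1.1 * w.2 - w1.2 * w.1
  have hDmem : ∀ w ∈ Lam b s, D w ∈ b := by
    intro w hw
    rw [mem_Lam] at hw hw1
    have h1 : D w = (w1.1 - s * w1.2) * w.2 - w1.2 * (w.1 - s * w.2) := by
      simp only [D]; ring
    rw [h1]
    exact b.sub_mem (b.mul_mem_right _ hw1) (b.mul_mem_left _ hw)
  have hDsub : ∀ w w' : O × O, D w - D w' = D (w - w') := by
    intro w w'
    simp only [D, Prod.fst_sub, Prod.snd_sub]; ring
  -- the number of values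
  have himg : (A.image D).card ≤ (2 * (2 * C1 * ρ * sz2 B w1) / μ + 1) ^ n := by
    have h1 : ((A.image D).image (fun x => x - D w0)).card = (A.image D).card :=
      Finset.card_image_of_injective _ sub_left_injective
    rw [← h1]
    let H : Submodule ℤ O := b.restrictScalars ℤ
    have hrank : finrank ℤ H ≤ n := by
      rw [← finrank_O B]
      exact Submodule.finrank_le H
    refine packing' H hrank (sz B) (sz_sub B) (le_sz_nsmul B) hμ
      (fun x hx hx0 => hμmin x hx hx0) _ ?_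
    intro x hx
    obtain ⟨y, hy, rfl⟩ := Finset.mem_image.1 hx
    obtain ⟨w, hw, rfl⟩ := Finset.mem_image.1 hy
    refine ⟨b.sub_mem (hDmem w (hA w hw)) (hDmem w0 (hA w0 hw0)), ?_⟩
    rw [hDsub]
    have h2 := sz2_le.1 (hdiff w hw w0 hw0)
    have h3 := sz2_le.1 (le_refl (sz2 B w1))
    calc sz B (D (w - w0)) ≤ sz B (w1.1 * (w - w0).2) + sz B (w1.2 * (w - w0).1) := sz_sub B _ _
      _ ≤ C1 * (sz B w1.1 * sz B (w - w0).2) + C1 * (sz B w1.2 * sz B (w - w0).1) :=
        Nat.add_le_add (hC1 _ _) (hC1 _ _)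
      _ ≤ C1 * (sz2 B w1 * ρ) + C1 * (sz2 B w1 * ρ) :=
        Nat.add_le_add (Nat.mul_le_mul_left _ (Nat.mul_le_mul h3.1 h2.2))
          (Nat.mul_le_mul_left _ (Nat.mul_le_mul h3.2 h2.1))
      _ = 2 * C1 * ρ * sz2 B w1 := by ring
  -- the fibres
  have hfib : ∀ a ∈ A.image D, (A.filter (fun w => D w = a)).card ≤ (2 * ρ / l + 1) ^ n := by
    intro a ha
    obtain ⟨w', hw', rfl⟩ := Finset.mem_image.1 ha
    have h1 : ((A.filter (fun w => D w = D w')).image (fun w => w - w')).card =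
        (A.filter (fun w => D w = D w')).card :=
      Finset.card_image_of_injective _ sub_left_injective
    rw [← h1]
    refine count_line B (Lam b s) hl hmin w1 hw10 _ ?_
    intro x hx
    obtain ⟨w, hw, rfl⟩ := Finset.mem_image.1 hx
    rw [Finset.mem_filter] at hw
    refine ⟨(Lam b s).sub_mem (hA w hw.1) (hA w' hw'), ?_, hdiff w hw.1 w' hw'⟩
    have h2 : D (w - w') = 0 := by rw [← hDsub, hw.2, sub_self]
    exact sub_eq_zero.1 h2
  calc A.card ≤ (2 * ρ / l + 1) ^ n * (A.image D).card :=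
        Finset.card_le_mul_card_image A _ hfib
    _ ≤ _ := Nat.mul_le_mul_left _ himg

end Pool.Agent.Helper23.CB
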