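import Mathlib

/-!
Project CB (MP_9410e4): roots of a polynomial modulo an ideal.
-/

namespace Pool.Agent.Helper23.CB

open Polynomial

section

variable {O : Type*} [CommRing O]

/-- two roots modulo b which agree modulo every prime containing b agree modulo b -/
theorem root_unique (P : O[X]) (b : Ideal O)
    (hP : ∀ q : Ideal O, q.IsPrime → b ≤ q → ∀ t : O, P.eval t ∈ q → P.derivative.eval t ∉ q)
    (t t' : O) (ht : P.eval t ∈ b) (ht' : P.eval t' ∈ b)
    (h : ∀ q : Ideal O, q.IsPrime → b ≤ q → t - t' ∈ q) : t - t' ∈ b := by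
  obtain ⟨k, hk⟩ := P.binomExpansion t (t' - t)
  rw [add_sub_cancel] at hk
  set y := t' - t with hy
  have hyU : y * (P.derivative.eval t + k * y) ∈ b := by
    have : y * (P.derivative.eval t + k * y) = P.eval t' - P.eval t := by rw [hk]; ring
    rw [this]
    exact b.sub_mem ht' ht
  have htop : Ideal.span {P.derivative.eval t + k * y} ⊔ b = ⊤ := by
    by_contra hne
    obtain ⟨q, hq, hle⟩ := Ideal.exists_le_maximal _ hne
    have hbq : b ≤ q := le_sup_right.trans hle
    have hU : P.derivative.eval t + k * y ∈ q :=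
      hle (Ideal.mem_sup_left (Ideal.mem_span_singleton_self _))
    have hyq : y ∈ q := by
      have := q.neg_mem (h q hq.isPrime hbq)
      rwa [neg_sub] at this
    refine hP q hq.isPrime hbq t (hbq ht) ?_
    have := q.sub_mem hU (q.mul_mem_left k hyq)
    rwa [add_sub_cancel_right] at this
  have h1 : (1 : O) ∈ Ideal.span {P.derivative.eval t + k * y} ⊔ b := by rw [htop]; trivial
  obtain ⟨z, hz, w, hw, hzw⟩ := Submodule.mem_sup.1 h1
  obtain ⟨a, rfl⟩ := Ideal.mem_span_singleton'.1 hz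
  have hyb : y ∈ b := by
    have : y = a * (y * (P.derivative.eval t + k * y)) + y * w := by
      calc y = y * (a * (P.derivative.eval t + k * y) + w) := by rw [hzw, mul_one]
        _ = _ := by ring
    rw [this]
    exact b.add_mem (b.mul_mem_left _ hyU) (b.mul_mem_left _ hw)
  have := b.neg_mem hyb
  rwa [hy, neg_sub] at this

/-- representatives of the roots modulo b: at most d ^ (number of primes containing b) -/
theorem exists_root_reps (P : O[X]) (b : Ideal O) (d : ℕ) (hd : P.natDegree ≤ d) (hmon : P.Monic)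
    (hP : ∀ q : Ideal O, q.IsPrime → b ≤ q → ∀ t : O, P.eval t ∈ q → P.derivative.eval t ∉ q)
    (Q : Finset (Ideal O)) (hQ : ∀ q ∈ Q, q.IsPrime) (hbQ : ∀ q ∈ Q, b ≤ q)
    (hall : ∀ q : Ideal O, q.IsPrime → b ≤ q → q ∈ Q) :
    ∃ R : Finset O, R.card ≤ d ^ Q.card ∧ (∀ t ∈ R, P.eval t ∈ b) ∧
      ∀ t : O, P.eval t ∈ b → ∃ t' ∈ R, t - t' ∈ b := by
  classical
  have hprime : ∀ q : Q, (q : Ideal O).IsPrime := fun q => hQ q q.2
  haveI : ∀ q : Q, IsDomain (O ⧸ (q : Ideal O)) := fun q => by
    haveI := hprime q; exact Ideal.Quotient.isDomain _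
  let F : ∀ q : Q, Finset (O ⧸ (q : Ideal O)) :=
    fun q => (P.map (Ideal.Quotient.mk (q : Ideal O))).roots.toFinset
  have hne : ∀ q : Q, P.map (Ideal.Quotient.mk (q : Ideal O)) ≠ 0 := fun q => by
    haveI := (hprime q).ne_top
    exact (hmon.map _).ne_zero
  have hF : ∀ q : Q, (F q).card ≤ d := fun q =>
    ((Multiset.toFinset_card_le _).trans (card_roots' _)).trans ((natDegree_map_le).trans hd)
  let v : O → ∀ q : Q, O ⧸ (q : Ideal O) := fun t q => Ideal.Quotient.mk (q : Ideal O) t
  have hv : ∀ t : O, P.eval t ∈ b → v t ∈ Fintype.piFinset F := by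
    intro t ht
    rw [Fintype.mem_piFinset]
    intro q
    rw [Multiset.mem_toFinset, mem_roots (hne q), IsRoot.def, eval_map,
      eval₂_at_apply, Ideal.Quotient.eq_zero_iff_mem]
    exact hbQ q q.2 ht
  let A : Finset (∀ q : Q, O ⧸ (q : Ideal O)) :=
    (Fintype.piFinset F).filter (fun f => ∃ t : O, P.eval t ∈ b ∧ v t = f)
  have hA : ∀ f ∈ A, ∃ t : O, P.eval t ∈ b ∧ v t = f := fun f hf => (Finset.mem_filter.1 hf).2
  choose! g hg using hA
  refine ⟨A.image g, ?_, ?_, ?_⟩
  · refine Finset.card_image_le.trans ((Finset.card_filter_le _ _).trans ?_)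
    rw [Fintype.card_piFinset]
    calc ∏ q : Q, (F q).card ≤ ∏ _q : Q, d := Finset.prod_le_prod' fun q _ => hF q
      _ = d ^ Q.card := by simp
  · intro t ht
    obtain ⟨f, hf, rfl⟩ := Finset.mem_image.1 ht
    exact (hg f hf).1
  · intro t ht
    have hfA : v t ∈ A := Finset.mem_filter.2 ⟨hv t ht, t, ht, rfl⟩
    refine ⟨g (v t), Finset.mem_image_of_mem _ hfA, ?_⟩
    refine root_unique P b hP t _ ht (hg _ hfA).1 ?_
    intro q hq hbq
    have := congrFun (hg _ hfA).2 ⟨q, hall q hq hbq⟩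
    rw [← Ideal.Quotient.eq]
    exact this.symm

end

end Pool.Agent.Helper23.CB
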