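import Pool.Agent.Helper79.CB.Root
import Pool.Agent.Helper75.CB.NormHv
import Pool.Agent.Helper25.CB.SysK

/-!
# CB, degree 3: cover and cofactors, for the system `sysK`
-/

set_option autoImplicit false

namespace Pool.Agent.Helper23.CB

open NumberField Polynomial Finset Pool.Agent.Helper4.CB Pool.Agent.Helper25.CB
  Pool.Agent.Helper35.CB

variable {K : Type} [Field K] [NumberField K] {m : ℕ}

/-- the events are covered by the lattices of `v` and of the roots -/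
theorem cover3 {S : Finset (𝓞 K)[X]} (hS : ∀ P ∈ S, P.Monic) (q : Pm K m) {g : 𝓞 K × 𝓞 K}
    (hg : g ∈ EV S (m : 𝓞 K) q.1) :
    g.2 ∈ q.1.asIdeal ∨ ∃ P ∈ S, ∃ t : Rt P (ofPm q).1, g ∈ Lam (ofPm q).1 (rep t * m) := by
  by_cases hv : g.2 ∈ q.1.asIdeal
  · exact Or.inl hv
  right
  rcases hg with hg | ⟨P, hP, hg⟩
  · exact absurd hg hv
  · refine ⟨P, hP, Pool.Agent.Helper79.CB.root_of_mem P (hS P hP) (ofPm q) g hg ?_⟩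
    intro q' hq' h
    rw [pf_ofPm, Finset.mem_singleton] at hq'
    subst hq'
    exact hv h.2

/-- the value of the form at a point of the base coset -/
theorem dvd_hv_sub {P : (𝓞 K)[X]} (hP : P.Monic) {r : ℕ} {g : 𝓞 K × 𝓞 K}
    (hg : (m : 𝓞 K) ∣ g.1 - (r : 𝓞 K)) :
    (m : 𝓞 K) ∣ hv P g.1 (m * g.2) - (r : 𝓞 K) ^ P.natDegree := by
  have h1 : (m : 𝓞 K) ∣ hv P g.1 (m * g.2) - g.1 ^ P.natDegree :=
    dvd_trans (Dvd.intro _ rfl) (Pool.Agent.Helper14.CB.hv_sub hP g.1 (m * g.2))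
  have h2 : (m : 𝓞 K) ∣ g.1 ^ P.natDegree - (r : 𝓞 K) ^ P.natDegree :=
    hg.trans (sub_dvd_pow_sub_pow _ _ _)
  have := dvd_add h1 h2
  rwa [sub_add_sub_cancel] at this

/-- the cofactor of a bad prime dividing `P(u, m v)` -/
theorem cof_P {J r : ℕ} (hJm : 2 ^ J ∣ m) (hr : r ≡ 5 [MOD 2 ^ J]) (hrm : r.Coprime m)
    {P : (𝓞 K)[X]} (hP : P.Monic) (h1 : 1 ≤ P.natDegree)
    (hJ : 5 ^ (P.natDegree * Module.finrank ℚ K) + 2 < 2 ^ J) {C : ℕ}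
    (hC : ∀ X : ℕ, 1 ≤ X → ∀ g ∈ bx (eK K) 0 X,
      (Algebra.norm ℤ (hv P g.1 (m * g.2))).natAbs ≤ C * X ^ (P.natDegree * Module.finrank ℚ K))
    {X : ℕ} (hX : 1 ≤ X) {g : 𝓞 K × 𝓞 K} (hg : g ∈ bx (eK K) 0 X)
    (hgr : (m : 𝓞 K) ∣ g.1 - (r : 𝓞 K)) (hgam : ∀ q : Pm K m, g ∉ gam q.1.asIdeal)
    (q : Pm K m) (hq : nm q.1 ≡ 1 [MOD 2 ^ J]) (t : Rt P (ofPm q).1)
    (hgt : g ∈ Lam (ofPm q).1 (rep t * m)) :
    ∃ b : Σ I : Im K m, Rt P I.1,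
      (b.1.1 ≠ ⊤ ∧ (((Ideal.absNorm b.1.1 : ℕ) : ZMod (2 ^ J)) =
          5 ^ (P.natDegree * Module.finrank ℚ K) ∨
        ((Ideal.absNorm b.1.1 : ℕ) : ZMod (2 ^ J)) =
          - 5 ^ (P.natDegree * Module.finrank ℚ K))) ∧
      (pf b.1).Nonempty ∧ g ∈ Lam b.1.1 (rep b.2 * m) ∧
      (∀ q' ∈ pf b.1, hv P g.1 (m * g.2) ∈ q'.1.asIdeal) ∧
      Ideal.absNorm b.1.1 * nm q.1 ≤ C * X ^ (P.natDegree * Module.finrank ℚ K) := by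
  have hx : hv P g.1 (m * g.2) ∈ q.1.asIdeal :=
    hv_mem K P hP m _ (rep t) (eval_rep t) g hgt
  obtain ⟨I, hI1, hI2, hI3, hI4⟩ := cofactor3 hJm hr hrm h1 hJ (dvd_hv_sub hP hgr) q.1 hq hx
  obtain ⟨t', ht'⟩ := Pool.Agent.Helper79.CB.root_of_mem P hP I g hI2
    (fun q' _ h => hgam q' (mem_gam.2 h))
  refine ⟨⟨I, t'⟩, ⟨hI1, hI4⟩, pf_nonempty I hI1, ht', ?_, ?_⟩
  · intro q' hq'
    exact mem_pf.1 hq' hI2
  · rw [hI3]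
    exact hC X hX g hg

/-- the cofactor of a bad prime dividing `v` -/
theorem cof_V {J r : ℕ} (hJm : 2 ^ J ∣ m) (hr : r ≡ 5 [MOD 2 ^ J]) (hrm : r.Coprime m)
    (hJ : 5 ^ (1 * Module.finrank ℚ K) + 2 < 2 ^ J) {C : ℕ}
    (hC : ∀ X : ℕ, 1 ≤ X → ∀ g ∈ bx (eK K) 0 X,
      (Algebra.norm ℤ g.2).natAbs ≤ C * X ^ Module.finrank ℚ K)
    {X : ℕ} (hX : 1 ≤ X) {g : 𝓞 K × 𝓞 K} (hg : g ∈ bx (eK K) 0 X)
    (hgr : (m : 𝓞 K) ∣ g.2 - (r : 𝓞 K)) (q : Pm K m) (hq : nm q.1 ≡ 1 [MOD 2 ^ J])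
    (hgt : g.2 ∈ q.1.asIdeal) :
    ∃ b : Im K m, (pf b).Nonempty ∧ g.2 ∈ b.1 ∧ (∀ q' ∈ pf b, g.2 ∈ q'.1.asIdeal) ∧
      Ideal.absNorm b.1 * nm q.1 ≤ C * X ^ (1 * Module.finrank ℚ K) := by
  have hx : (m : 𝓞 K) ∣ g.2 - (r : 𝓞 K) ^ 1 := by rwa [pow_one]
  obtain ⟨I, hI1, hI2, hI3, -⟩ := cofactor3 hJm hr hrm le_rfl hJ hx q.1 hq hgt
  refine ⟨I, pf_nonempty I hI1, hI2, fun q' hq' => mem_pf.1 hq' hI2, ?_⟩
  rw [hI3, one_mul]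
  exact hC X hX g hg

end Pool.Agent.Helper23.CB
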