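import Pool.Agent.Helper23.CB.Sieve3a
import Pool.Agent.Helper25.CB.SysG

/-!
# CB, degree 3: cover and cofactors, for the system `sysG` with scaling `s` and modulus `m`
-/

set_option autoImplicit false

namespace Pool.Agent.Helper23.CB

open NumberField Polynomial Finset Pool.Agent.Helper4.CB Pool.Agent.Helper25.CB
  Pool.Agent.Helper35.CB

variable {K : Type} [Field K] [NumberField K] {m s : ℕ}

/-- the events are covered by the lattices of `v` and of the roots -/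
theorem cover3G {S : Finset (𝓞 K)[X]} (hS : ∀ P ∈ S, P.Monic) (q : Pm K m)
    (hs : (s : 𝓞 K) ∉ q.1.asIdeal) {g : 𝓞 K × 𝓞 K} (hg : g ∈ EV S (s : 𝓞 K) q.1) :
    g.2 ∈ q.1.asIdeal ∨ ∃ P ∈ S, ∃ t : Rt P (ofPm q).1, g ∈ Lam (ofPm q).1 (rep t * s) := by
  by_cases hv : g.2 ∈ q.1.asIdeal
  · exact Or.inl hv
  right
  rcases hg with hg | ⟨P, hP, hg⟩
  · exact absurd hg hv
  · refine ⟨P, hP, Pool.Agent.Helper79.CB.root_of_mem' P (hS P hP) (ofPm q).1 (s : 𝓞 K) g hg ?_⟩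
    intro q' hq' hqq'
    obtain ⟨q'', hq'', rfl⟩ := exists_pf (ofPm q) q' hq' hqq'
    rw [pf_ofPm, Finset.mem_singleton] at hq''
    subst hq''
    exact ⟨hs, fun h => hv h.2⟩

/-- the cofactor of a bad prime dividing `P(u, s v)` -/
theorem cof_PG {J : ℕ} {P : (𝓞 K)[X]} (hP : P.Monic) (hsm : ∀ q : Pm K m, (s : 𝓞 K) ∉ q.1.asIdeal)
    (a : ZMod (2 ^ J)) {C : ℕ}
    (hC : ∀ X : ℕ, 1 ≤ X → ∀ g ∈ bx (eK K) 0 X,
      (Algebra.norm ℤ (hv P g.1 (s * g.2))).natAbs ≤ C * X ^ (P.natDegree * Module.finrank ℚ K))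
    {X : ℕ} (hX : 1 ≤ X) {g : 𝓞 K × 𝓞 K} (hg : g ∈ bx (eK K) 0 X)
    (hgam : ∀ q : Pm K m, g ∉ gam q.1.asIdeal) (q : Pm K m)
    (hcof : hv P g.1 (s * g.2) ∈ q.1.asIdeal → ∃ I : Im K m, I.1 ≠ ⊤ ∧ hv P g.1 (s * g.2) ∈ I.1 ∧
      Ideal.absNorm I.1 * nm q.1 ≤ (Algebra.norm ℤ (hv P g.1 (s * g.2))).natAbs ∧
      (((Ideal.absNorm I.1 : ℕ) : ZMod (2 ^ J)) = a ∨
        ((Ideal.absNorm I.1 : ℕ) : ZMod (2 ^ J)) = - a))
    (t : Rt P (ofPm q).1) (hgt : g ∈ Lam (ofPm q).1 (rep t * s)) :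
    ∃ b : Σ I : Im K m, Rt P I.1,
      (b.1.1 ≠ ⊤ ∧ (((Ideal.absNorm b.1.1 : ℕ) : ZMod (2 ^ J)) = a ∨
        ((Ideal.absNorm b.1.1 : ℕ) : ZMod (2 ^ J)) = - a)) ∧
      (pf b.1).Nonempty ∧ g ∈ Lam b.1.1 (rep b.2 * s) ∧
      (∀ q' ∈ pf b.1, hv P g.1 (s * g.2) ∈ q'.1.asIdeal) ∧
      Ideal.absNorm b.1.1 * nm q.1 ≤ C * X ^ (P.natDegree * Module.finrank ℚ K) := by
  have hx : hv P g.1 (s * g.2) ∈ q.1.asIdeal :=
    hv_mem K P hP s _ (rep t) (eval_rep t) g hgt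
  obtain ⟨I, hI1, hI2, hI3, hI4⟩ := hcof hx
  obtain ⟨t', ht'⟩ := Pool.Agent.Helper79.CB.root_of_mem' P hP I.1 (s : 𝓞 K) g hI2
    (fun q' hq' hqq' => by
      obtain ⟨q'', hq'', rfl⟩ := exists_pf I q' hq' hqq'
      exact ⟨hsm q'', fun h => hgam q'' (mem_gam.2 h)⟩)
  refine ⟨⟨I, t'⟩, ⟨hI1, hI4⟩, pf_nonempty I hI1, ht', ?_, ?_⟩
  · intro q' hq'
    exact mem_pf.1 hq' hI2
  · exact hI3.trans (hC X hX g hg)

end Pool.Agent.Helper23.CB
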