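import Pool.Agent.Helper23.CB.Glue3
import Pool.Agent.Helper35.CB.SieveGTwo
import Pool.Agent.Helper49.CB.CofG

/-!
# CB, T-TRI: `SieveG` for polynomials of degree at most three
-/

set_option autoImplicit false

namespace Pool.Agent.Helper23.CB

open NumberField Polynomial Finset Pool.Agent.Helper4.CB Pool.Agent.Helper25.CB
  Pool.Agent.Helper35.CB Pool.Agent.Helper10.TRI

variable {K : Type} [Field K] [NumberField K]

omit [NumberField K] in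
/-- the prime ideals containing `m1 ^ k` -/
theorem natPow_mem_iff {m1 k : ℕ} (hk : 1 ≤ k) (q : Ideal (𝓞 K)) (hq : q.IsPrime) :
    ((m1 ^ k : ℕ) : 𝓞 K) ∈ q ↔ (m1 : 𝓞 K) ∈ q := by
  rw [Nat.cast_pow]
  constructor
  · intro h
    exact hq.mem_of_pow_mem k h
  · intro h
    exact q.pow_mem_of_mem h k hk

/-- the cofactors at a general base point, with their classes -/
theorem exists_base3 (K : Type) [Field K] [NumberField K] (D : ℕ) : ∃ J1 : ℕ, ∀ J : ℕ, J1 ≤ J →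
    ∀ S : Finset (𝓞 K)[X], S.card ≤ D →
    (∀ P ∈ S, P.Monic ∧ 1 ≤ P.natDegree ∧ P.natDegree ≤ 3 ∧ P.eval 1 ≠ 0) →
    ∀ m1 : ℕ, m1 ≠ 0 → 2 ∣ m1 → ∃ (k r : ℕ) (a : (𝓞 K)[X] → ZMod (2 ^ J)), 1 ≤ k ∧
      r.Coprime m1 ∧ (∀ P ∈ S, IsUnit (a P)) ∧ ∀ u v : 𝓞 K,
      ((m1 ^ k : ℕ) : 𝓞 K) ∣ u - (r : 𝓞 K) → ((m1 ^ k : ℕ) : 𝓞 K) ∣ v - (r : 𝓞 K) →
      Cofac (m1 ^ k) (2 ^ J) v ∧ ∀ P ∈ S, Cofac3 (m1 ^ k) (2 ^ J) (hv P u v) (a P) := by
  classical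
  obtain ⟨J1, hJ1⟩ := Helper14.CB.exists_j (Module.finrank ℚ K) (D + 1) 3 Module.finrank_pos
  refine ⟨J1, fun J hJ S hS hSP m1 hm1 h2 => ?_⟩
  have hc : ∀ y : 𝓞 K, ∃ k0 ey : ℕ, y ≠ 0 → ey.Coprime m1 ∧ ey ≠ 0 ∧
      ∀ k, k0 ≤ k → ∀ r e : ℕ, r.Coprime m1 → ∀ x : 𝓞 K,
      ((m1 ^ k : ℕ) : 𝓞 K) ∣ x - (r : 𝓞 K) ^ e * y → x ≠ 0 ∧
      ∀ q : Pl K, (m1 : 𝓞 K) ∉ q.asIdeal → nm q ≡ 1 [MOD 2 ^ J] → x ∈ q.asIdeal →
        ∃ b : Ideal (𝓞 K), b ≠ ⊥ ∧ b ⊔ Ideal.span {((m1 ^ k : ℕ) : 𝓞 K)} = ⊤ ∧ x ∈ b ∧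
          Ideal.absNorm b * nm q ≤ (Algebra.norm ℤ x).natAbs ∧
          ((Ideal.absNorm b : ZMod (2 ^ J)) =
              ((r ^ (e * Module.finrank ℚ K) * ey : ℕ) : ZMod (2 ^ J)) ∨
            (Ideal.absNorm b : ZMod (2 ^ J)) =
              -((r ^ (e * Module.finrank ℚ K) * ey : ℕ) : ZMod (2 ^ J))) := by
    intro y
    by_cases hy : y = 0
    · exact ⟨0, 0, fun h => absurd hy h⟩
    · obtain ⟨k0, ey, h⟩ := Helper49.CB.cofG m1 hm1 h2 y hy J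
      exact ⟨k0, ey, fun _ => h⟩
  choose k0 ey hc using hc
  obtain ⟨j, hj1, -, hj2⟩ := hJ1 J hJ
    (insert (1, ey 1) (S.image (fun P => (P.natDegree, ey (P.eval 1))))) (by
    refine (Finset.card_insert_le _ _).trans ?_
    have := Finset.card_image_le (s := S) (f := fun P => (P.natDegree, ey (P.eval 1)))
    omega) (by
    intro x hx
    rw [Finset.mem_insert, Finset.mem_image] at hx
    rcases hx with rfl | ⟨P, hP, rfl⟩
    · exact ⟨le_rfl, by norm_num⟩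
    · exact ⟨(hSP P hP).2.1, (hSP P hP).2.2.1⟩)
  obtain ⟨r0, hr0, -, hr0m, -⟩ := Helper56.CB.exists_r J m1 (Nat.pos_of_ne_zero hm1)
  have hr0m1 : r0.Coprime m1 := Nat.Coprime.coprime_dvd_right (dvd_mul_right _ _) hr0m
  have hr5 : ((2 ^ J : ℕ) : ℤ) ∣ (r0 : ℤ) - 5 := (Nat.modEq_iff_dvd.1 hr0.symm)
  have htr : ∀ (d f : ℕ) (δ : ℤ),
      ¬ ((2 ^ J : ℕ) : ℤ) ∣ 5 ^ (j * d * Module.finrank ℚ K) * f - δ →
      ¬ ((2 ^ J : ℕ) : ℤ) ∣ ((r0 ^ j : ℕ) : ℤ) ^ (d * Module.finrank ℚ K) * f - δ := by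
    intro d f δ h1 h3
    apply h1
    have h4 : ((2 ^ J : ℕ) : ℤ) ∣ (r0 : ℤ) ^ (j * d * Module.finrank ℚ K) -
        5 ^ (j * d * Module.finrank ℚ K) := hr5.trans (sub_dvd_pow_sub_pow _ _ _)
    have h5 := dvd_sub h3 (h4.mul_right (f : ℤ))
    have h6 : ((r0 ^ j : ℕ) : ℤ) ^ (d * Module.finrank ℚ K) =
        (r0 : ℤ) ^ (j * d * Module.finrank ℚ K) := by
      push_cast
      rw [← pow_mul, mul_assoc]
    have h7 : ((r0 ^ j : ℕ) : ℤ) ^ (d * Module.finrank ℚ K) * f - δ -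
        ((r0 : ℤ) ^ (j * d * Module.finrank ℚ K) - 5 ^ (j * d * Module.finrank ℚ K)) * f =
        5 ^ (j * d * Module.finrank ℚ K) * f - δ := by
      rw [h6]
      ring
    rwa [h7] at h5
  have hj3 : ∀ (d f : ℕ),
      (d, f) ∈ insert (1, ey 1) (S.image (fun P => (P.natDegree, ey (P.eval 1)))) →
      (((r0 ^ j) ^ (d * Module.finrank ℚ K) * f : ℕ) : ZMod (2 ^ J)) ≠ 1 ∧
      (((r0 ^ j) ^ (d * Module.finrank ℚ K) * f : ℕ) : ZMod (2 ^ J)) ≠ -1 := by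
    intro d f hdf
    have h1 := hj2 (d, f) hdf
    have h3 := htr d f 1 h1.1
    have h4 := htr d f (-1) (by rw [sub_neg_eq_add]; exact h1.2)
    constructor
    · intro h5
      apply h3
      rw [← ZMod.intCast_zmod_eq_zero_iff_dvd]
      push_cast at h5 ⊢
      rw [h5, sub_self]
    · intro h5
      apply h4
      rw [← ZMod.intCast_zmod_eq_zero_iff_dvd]
      push_cast at h5 ⊢
      rw [h5, sub_self]
  have hrj : (r0 ^ j).Coprime m1 := hr0m1.pow_left j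
  obtain ⟨k, hk⟩ : ∃ k, k = k0 1 + (∑ P ∈ S, k0 (P.eval 1)) + 1 := ⟨_, rfl⟩
  have hkP : ∀ P ∈ S, k0 (P.eval 1) ≤ k := by
    intro P hP
    have := Finset.single_le_sum (f := fun P : (𝓞 K)[X] => k0 (P.eval 1))
      (fun _ _ => Nat.zero_le _) hP
    omega
  have key : ∀ (x y : 𝓞 K) (e : ℕ), y ≠ 0 → k0 y ≤ k →
      (e, ey y) ∈ insert (1, ey 1) (S.image (fun P => (P.natDegree, ey (P.eval 1)))) →
      ((m1 ^ k : ℕ) : 𝓞 K) ∣ x - ((r0 ^ j : ℕ) : 𝓞 K) ^ e * y →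
      Cofac3 (m1 ^ k) (2 ^ J) x
        (((r0 ^ j) ^ (e * Module.finrank ℚ K) * ey y : ℕ) : ZMod (2 ^ J)) := by
    intro x y e hy hky hmem hx q hq hq1 hxq
    have hq' : (m1 : 𝓞 K) ∉ q.asIdeal := fun h =>
      hq ((natPow_mem_iff (by omega) q.asIdeal q.isPrime).2 h)
    obtain ⟨b, hb0, hb1, hxb, hb2, hb3⟩ :=
      ((hc y hy).2.2 k hky (r0 ^ j) e hrj x hx).2 q hq' hq1 hxq
    refine ⟨⟨b, hb0, hb1⟩, ?_, hxb, hb2, hb3⟩
    intro hbt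
    have hbt' : b = ⊤ := hbt
    obtain ⟨h5, h6⟩ := hj3 e (ey y) hmem
    rw [hbt', Ideal.absNorm_top, Nat.cast_one] at hb3
    rcases hb3 with h | h
    · exact h5 h.symm
    · exact h6 (by rw [h, neg_neg])
  refine ⟨k, r0 ^ j, fun P => (((r0 ^ j) ^ (P.natDegree * Module.finrank ℚ K) *
    ey (P.eval 1) : ℕ) : ZMod (2 ^ J)), by omega, hrj, ?_, ?_⟩
  · intro P hP
    rw [ZMod.isUnit_iff_coprime]
    have h1 : ((r0 ^ j) ^ (P.natDegree * Module.finrank ℚ K) * ey (P.eval 1)).Coprime m1 :=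
      Nat.Coprime.mul_left (hrj.pow_left _) (hc _ (hSP P hP).2.2.2).1
    exact (Nat.Coprime.coprime_dvd_right h2 h1).pow_right J
  · intro u v hu hv'
    refine ⟨?_, fun P hP => ?_⟩
    · have hvx : ((m1 ^ k : ℕ) : 𝓞 K) ∣ v - ((r0 ^ j : ℕ) : 𝓞 K) ^ 1 * 1 := by
        rw [pow_one, mul_one]
        exact hv'
      intro q hq hq1 hvq
      obtain ⟨I, hI1, hI2, hI3, -⟩ := key v 1 1 one_ne_zero (by omega)
        (Finset.mem_insert_self _ _) hvx q hq hq1 hvq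
      obtain ⟨q', hq'⟩ := pf_nonempty I hI1
      exact ⟨q', mem_pf.1 hq' hI2, (Nat.mul_le_mul_right _ (nm_le_absNorm I hq')).trans hI3⟩
    · exact key (hv P u v) (P.eval 1) P.natDegree (hSP P hP).2.2.2 (hkP P hP)
        (Finset.mem_insert_of_mem (Finset.mem_image_of_mem
          (fun P : (𝓞 K)[X] => (P.natDegree, ey (P.eval 1))) hP))
        (Helper14.CB.hv_cong hu hv')

/-- **SieveG for degree at most three** -/
theorem sieveG_three (K : Type) [Field K] [NumberField K] : SieveG K 3 := by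
  intro D J0
  obtain ⟨J1, hJ1⟩ := exists_base3 K D
  obtain ⟨J, Y, -, hJJ, hY, -, h⟩ := glue_three K D (J0 + J1)
  refine ⟨J, Y, by omega, by omega, fun S hSD hS m1 hm1 hYm hdisc _ Z => ?_⟩
  obtain ⟨k, r, a, hk, hr, ha, hbase⟩ := hJ1 J (by omega) S hSD
    (fun P hP => ⟨(hS P hP).1, (hS P hP).2.1, (hS P hP).2.2.1, (hS P hP).2.2.2.2⟩) m1 hm1
    ((Dvd.intro _ rfl).trans hYm)
  have hY1 : Y ∣ m1 := (Dvd.intro_left _ rfl).trans hYm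
  have hOk : ∀ P ∈ S, OkP K (m1 ^ k) P := by
    intro P hP
    refine ⟨(hS P hP).1, (hS P hP).2.1, (hS P hP).2.2.1, (hS P hP).2.2.2.1, ?_⟩
    intro q hq t h1 h2
    obtain ⟨A, B, hAB⟩ := hdisc P hP
    apply hq
    have h3 : (m1 : 𝓞 K) ∈ q := by
      have h4 := congrArg (fun R : (𝓞 K)[X] => R.eval t) hAB
      simp only [eval_add, eval_mul, eval_C] at h4
      rw [← h4]
      exact q.add_mem (q.mul_mem_left _ h1) (q.mul_mem_left _ h2)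
    rw [Nat.cast_pow]
    exact q.pow_mem_of_mem h3 k hk
  obtain ⟨u, v, h1, h2, h3, h4, -, h6, h7⟩ := h S hSD (m1 ^ k) r 1 a hOk (pow_ne_zero _ hm1)
    (hY1.trans (dvd_pow_self _ (by omega))) (hr.pow_right k) one_ne_zero
    (fun q hq => q.1.isPrime.ne_top ((Ideal.eq_top_iff_one _).2 (by rwa [Nat.cast_one] at hq))) ha
    (by
      intro u v hu hv
      rw [Nat.cast_one, one_mul]
      exact hbase u v hu hv) Z
  refine ⟨k, r, u, v, hk, hr, h1, h2, h4, ?_, ?_⟩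
  · rwa [Nat.cast_one, one_mul] at h6
  · intro p hp hmp
    obtain ⟨h9, h10⟩ := h7 p hp (fun h => hmp ((pow_mem_iff hk p).1 h))
    refine ⟨h9, fun P hP => ?_⟩
    have := h10 P hP
    rwa [Nat.cast_one, one_mul] at this

end Pool.Agent.Helper23.CB
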