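import Pool.Agent.Helper23.CB.Glue3

/-!
# CB: SieveX for degree at most three
-/

set_option autoImplicit false

namespace Pool.Agent.Helper23.CB

open NumberField Polynomial Finset Pool.Agent.Helper4.CB Pool.Agent.Helper25.CB
  Pool.Agent.Helper35.CB

variable {K : Type} [Field K] [NumberField K]

/-- **SX for degree at most three** -/
theorem sieveX_three (K : Type) [Field K] [NumberField K] : SieveX K 3 := by
  classical
  intro D J0
  obtain ⟨J, Y, hJ1, hJ0, hY2, hJY, hmain⟩ :=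
    glue_three K D (J0 + (5 ^ (3 * Module.finrank ℚ K) + 2))
  have hJ5 : ∀ e : ℕ, e ≤ 3 → 5 ^ (e * Module.finrank ℚ K) + 2 < 2 ^ J := by
    intro e he
    have h1 : 5 ^ (e * Module.finrank ℚ K) ≤ 5 ^ (3 * Module.finrank ℚ K) :=
      Nat.pow_le_pow_right (by norm_num) (Nat.mul_le_mul_right _ he)
    have h2 : J < 2 ^ J := Nat.lt_two_pow_self
    omega
  refine ⟨J, hJ1, (Nat.le_add_right _ _).trans hJ0, fun S hSD hS m1 hm1 Z => ?_⟩
  -- discriminants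
  have hd : ∀ P : (𝓞 K)[X], ∃ d : ℕ, d ≠ 0 ∧ (P ∈ S → ∀ q : Ideal (𝓞 K), (d : 𝓞 K) ∉ q →
      ∀ t, P.eval t ∈ q → P.derivative.eval t ∉ q) := by
    intro P
    by_cases hP : P ∈ S
    · obtain ⟨d, hd0, hd⟩ := exists_disc P (hS P hP).2.2.2
      exact ⟨d, hd0, fun _ => hd⟩
    · exact ⟨1, one_ne_zero, fun h => absurd h hP⟩
  choose d hd0 hd using hd
  obtain ⟨M, hM⟩ : ∃ M, M = m1 * Y * ∏ P ∈ S, d P := ⟨_, rfl⟩
  have hM0 : M ≠ 0 := by
    rw [hM]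
    exact mul_ne_zero (mul_ne_zero hm1 (by omega)) (Finset.prod_ne_zero_iff.2 fun P _ => hd0 P)
  obtain ⟨m, hm⟩ : ∃ m, m = M * M := ⟨_, rfl⟩
  have hMm : M ∣ m := ⟨_, hm⟩
  have hm0 : m ≠ 0 := by rw [hm]; exact mul_ne_zero hM0 hM0
  have hmm1 : m1 ∣ m := (Dvd.intro (Y * ∏ P ∈ S, d P) (by rw [hM]; ring)).trans hMm
  have hmY : Y ∣ m := (Dvd.intro (m1 * ∏ P ∈ S, d P) (by rw [hM]; ring)).trans hMm
  have hmJ : 2 ^ J ∣ m := hJY.trans hmY
  have hmd : ∀ P ∈ S, d P ∣ m := fun P hP =>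
    ((Finset.dvd_prod_of_mem d hP).trans (Dvd.intro_left (m1 * Y) (by rw [hM]))).trans hMm
  obtain ⟨r, hr5, -, hrm', -⟩ := Helper56.CB.exists_r J m (Nat.pos_of_ne_zero hm0)
  have hrm : r.Coprime m := Nat.Coprime.coprime_dvd_right (Dvd.intro _ rfl) hrm'
  have hOk : ∀ P ∈ S, OkP K m P := fun P hP =>
    ⟨(hS P hP).1, (hS P hP).2.1, (hS P hP).2.2.1, (hS P hP).2.2.2, fun q hq t ht =>
      hd P hP q (fun h => hq (q.mem_of_dvd (Nat.cast_dvd_cast (hmd P hP)) h)) t ht⟩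
  have h5 : IsUnit (5 : ZMod (2 ^ J)) := by
    have h := (ZMod.isUnit_iff_coprime 5 (2 ^ J)).2 (Nat.Coprime.pow_right _ (by norm_num))
    exact_mod_cast h
  obtain ⟨u, v, hu, hv', hu0, hv0, hcop, hZ, hbad⟩ := hmain S hSD m r m
    (fun P => 5 ^ (P.natDegree * Module.finrank ℚ K)) hOk hm0 hmY hrm hm0 (fun q => q.2)
    (fun P _ => h5.pow _)
    (by
      intro u v hu hv
      refine ⟨fun q hqm hq hvq => ?_, fun P hP q hqm hq hxq => ?_⟩
      · exact cofactor (K := K) (e := 1) hmJ hr5 hrm le_rfl (hJ5 1 (by norm_num)) (x := v)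
          (by rwa [pow_one]) q hq hvq
      · obtain ⟨I, hI1, hI2, hI3, hI4⟩ := cofactor3 (K := K) (e := P.natDegree) hmJ hr5 hrm
          (hS P hP).2.1 (hJ5 _ (hS P hP).2.2.1) (x := Pool.Agent.Helper4.CB.hv P u (m * v))
          (dvd_hv_sub (g := (u, v)) (hS P hP).1 hu) q hq hxq
        exact ⟨I, hI1, hI2, hI3.le, hI4⟩) Z
  refine ⟨m, r, u, v, hm0, hmm1, ⟨_, hm⟩, hrm, hv0, hu, hv', hcop, hZ, fun p hp => ?_⟩
  by_cases hpm : (m : 𝓞 K) ∈ p.asIdeal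
  · refine ⟨Pool.Agent.Helper35.CB.notMem_of_congr hrm hv' p hpm, fun P hP => ?_⟩
    have h1 := hv_congr_pow (hS P hP).1 (v := v) hu
    have h2 : (r ^ P.natDegree).Coprime m := hrm.pow_left _
    exact Pool.Agent.Helper35.CB.notMem_of_congr h2 (by push_cast; exact h1) p hpm
  · exact hbad p hp hpm

end Pool.Agent.Helper23.CB
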